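import Pool.Agent.R251.MV.Ker

/-!
Mean squares over well-spaced sets, for coefficients supported on `n = a^k d`, `d ∈ B`.
-/

set_option autoImplicit false

namespace Pool.Agent.R251.MV

open Finset
open Pool.Agent.TH705.DL (ph ph_norm Sep)
open Pool.Agent.R327.SI (lg_le)

theorem lg2 {N : ℕ} (hN : 1 ≤ N) : (1 + Real.log (2 * (N : ℝ))) ^ 2 ≤ 5476 * (N : ℝ) ^ (1 / 18 : ℝ) := by
  have hN1 : (1 : ℝ) ≤ N := by exact_mod_cast hN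
  have hN0 : (0 : ℝ) < N := by linarith
  have hlog0 : 0 ≤ Real.log (2 * (N : ℝ)) := Real.log_nonneg (by linarith)
  have h1 := lg_le (s := 1 / 36) (by norm_num) hN
  have h2 : (2 * (N : ℝ)) ^ (1 / 36 : ℝ) ≤ 2 * (N : ℝ) ^ (1 / 36 : ℝ) := by
    rw [Real.mul_rpow (by norm_num) hN0.le]
    have : (2 : ℝ) ^ (1 / 36 : ℝ) ≤ 2 := by
      calc (2 : ℝ) ^ (1 / 36 : ℝ) ≤ 2 ^ (1 : ℝ) :=
            Real.rpow_le_rpow_of_exponent_le (by norm_num) (by norm_num)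
        _ = 2 := Real.rpow_one _
    gcongr
  have h3 : 1 + Real.log (2 * (N : ℝ)) ≤ 74 * (N : ℝ) ^ (1 / 36 : ℝ) := by
    calc 1 + Real.log (2 * (N : ℝ)) ≤ (1 + 1 / (1 / 36 : ℝ)) * (2 * (N : ℝ)) ^ (1 / 36 : ℝ) := h1
      _ ≤ (1 + 1 / (1 / 36 : ℝ)) * (2 * (N : ℝ) ^ (1 / 36 : ℝ)) := by gcongr
      _ = _ := by norm_num; ring
  calc (1 + Real.log (2 * (N : ℝ))) ^ 2 ≤ (74 * (N : ℝ) ^ (1 / 36 : ℝ)) ^ 2 := by gcongr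
    _ = 5476 * ((N : ℝ) ^ (1 / 36 : ℝ)) ^ 2 := by ring
    _ = _ := by
      rw [← Real.rpow_natCast ((N : ℝ) ^ (1 / 36 : ℝ)) 2, ← Real.rpow_mul hN0.le]
      norm_num

/-- arbitrary coefficients -/
theorem base2 {N X : ℕ} {w : ℕ → ℝ} {c T C0 : ℝ} (hN : 1 ≤ N) (hX : 1 ≤ X) (hX2 : X ≤ 2 * N) (hc0 : 0 ≤ c)
    (hC0 : 1 ≤ C0) (hG : GoodW N X w c T C0) (W : Finset ℝ) (hW : Sep W)
    (hWT : ∀ t ∈ W, 0 ≤ t ∧ t ≤ T) (μ : ℝ) (hμ : 0 ≤ μ)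
    (hK : ∀ t : ℝ, 8 * (N : ℝ) ^ (1 + 2 * c) < |t| → |t| ≤ T → ‖Kw X w t‖ ≤ μ)
    (b : ℕ → ℂ) (hb : ∀ n, b n ≠ 0 → 1 ≤ w n) :
    ∑ t ∈ W, ‖∑ n ∈ Icc 1 X, b n * ph t n‖ ^ 2 ≤
      (80 * C0 * ((1 + Real.log (2 * N)) ^ 2 * (N : ℝ) ^ (5 / 4 + 3 * c)) + W.card * μ) *
        ∑ n ∈ Icc 1 X, ‖b n‖ ^ 2 := by
  have hN1 : (1 : ℝ) ≤ N := by exact_mod_cast hN
  have hN0 : (0 : ℝ) < N := by linarith
  have hX1 : (1 : ℝ) ≤ X := by exact_mod_cast hX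
  have hX2r : (X : ℝ) ≤ 2 * N := by exact_mod_cast hX2
  have hNp : (N : ℝ) ≤ (N : ℝ) ^ (1 + 2 * c) := by
    calc (N : ℝ) = (N : ℝ) ^ (1 : ℝ) := (Real.rpow_one _).symm
      _ ≤ _ := Real.rpow_le_rpow_of_exponent_le hN1 (by linarith)
  have h := wls X hX w hG.hw0 W hW 0 T (8 * (N : ℝ) ^ (1 + 2 * c)) μ (fun t ht => by simpa using hWT t ht)
    (by linarith) hμ hK b hb
  refine h.trans ?_
  apply mul_le_mul_of_nonneg_right _ (sum_nonneg fun _ _ => by positivity)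
  apply add_le_add _ le_rfl
  have hlX : 1 + Real.log (X : ℝ) ≤ 1 + Real.log (2 * N) := by
    have := Real.log_le_log (by linarith) hX2r
    linarith
  have hlX0 : 0 ≤ 1 + Real.log (X : ℝ) := by
    have := Real.log_nonneg hX1
    linarith
  have hs : Real.sqrt (∑ n ∈ Icc 1 X, w n ^ 2) ≤ C0 * (N : ℝ) ^ (1 / 4 + c) := by
    rw [Real.sqrt_le_left (by positivity)]
    calc ∑ n ∈ Icc 1 X, w n ^ 2 ≤ C0 * (N : ℝ) ^ (1 / 2 + 2 * c) := hG.hw2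
      _ ≤ C0 ^ 2 * (N : ℝ) ^ (1 / 2 + 2 * c) := by
        have : C0 ≤ C0 ^ 2 := by nlinarith
        gcongr
      _ = (C0 * (N : ℝ) ^ (1 / 4 + c)) ^ 2 := by
        rw [mul_pow, ← Real.rpow_natCast ((N : ℝ) ^ (1 / 4 + c)) 2, ← Real.rpow_mul hN0.le,
          show ((1 / 4 + c) * ((2 : ℕ) : ℝ) : ℝ) = 1 / 2 + 2 * c by push_cast; ring]
  calc 10 * (8 * (N : ℝ) ^ (1 + 2 * c)) * (1 + Real.log X) ^ 2 * Real.sqrt (∑ n ∈ Icc 1 X, w n ^ 2)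
      ≤ 10 * (8 * (N : ℝ) ^ (1 + 2 * c)) * (1 + Real.log (2 * N)) ^ 2 * (C0 * (N : ℝ) ^ (1 / 4 + c)) := by
        gcongr
    _ = 80 * C0 * ((1 + Real.log (2 * N)) ^ 2 * ((N : ℝ) ^ (1 + 2 * c) * (N : ℝ) ^ (1 / 4 + c))) := by ring
    _ = _ := by
        rw [← Real.rpow_add hN0, show (1 + 2 * c + (1 / 4 + c) : ℝ) = 5 / 4 + 3 * c by ring]

/-- coefficients bounded by one -/
theorem base1 {N X : ℕ} {w : ℕ → ℝ} {c T C0 : ℝ} (hN : 1 ≤ N) (hX : 1 ≤ X) (hX2 : X ≤ 2 * N) (hc0 : 0 ≤ c)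
    (hc : c ≤ 1 / 64) (hC0 : 1 ≤ C0) (hG : GoodW N X w c T C0) (W : Finset ℝ) (hW : Sep W)
    (hWT : ∀ t ∈ W, 0 ≤ t ∧ t ≤ T) (b : ℕ → ℂ) (hb : ∀ n, b n ≠ 0 → 1 ≤ w n) (hb1 : ∀ n, ‖b n‖ ≤ 1) :
    (∑ t ∈ W, ‖∑ n ∈ Icc 1 X, b n * ph t n‖ ^ 2 ≤
      (500000 * C0 ^ 2) * ((N : ℝ) ^ 2 + (1 + Real.log (2 * N)) ^ 2 * (W.card * N))) ∧
    (T ≤ N → ∑ t ∈ W, ‖∑ n ∈ Icc 1 X, b n * ph t n‖ ^ 2 ≤ (500000 * C0 ^ 2) * (N : ℝ) ^ 2) := by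
  have hN1 : (1 : ℝ) ≤ N := by exact_mod_cast hN
  have hN0 : (0 : ℝ) < N := by linarith
  have hlog0 : 0 ≤ Real.log (2 * (N : ℝ)) := Real.log_nonneg (by linarith)
  set lg : ℝ := 1 + Real.log (2 * N) with hlg
  have hlg1 : 1 ≤ lg := by linarith
  have hsum : ∑ n ∈ Icc 1 X, ‖b n‖ ^ 2 ≤ C0 * (N : ℝ) ^ (1 / 2 + c) := by
    refine le_trans ?_ hG.hw1
    apply sum_le_sum
    intro n _
    rcases eq_or_ne (b n) 0 with h0 | h0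
    · rw [h0, norm_zero]
      simpa using hG.hw0 n
    · exact (pow_le_one₀ (norm_nonneg _) (hb1 n)).trans (hb n h0)
  have hsum0 : 0 ≤ ∑ n ∈ Icc 1 X, ‖b n‖ ^ 2 := sum_nonneg fun _ _ => by positivity
  have hmain : 80 * C0 * (lg ^ 2 * (N : ℝ) ^ (5 / 4 + 3 * c)) * (C0 * (N : ℝ) ^ (1 / 2 + c)) ≤
      (500000 * C0 ^ 2) * (N : ℝ) ^ 2 := by
    calc 80 * C0 * (lg ^ 2 * (N : ℝ) ^ (5 / 4 + 3 * c)) * (C0 * (N : ℝ) ^ (1 / 2 + c))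
        = 80 * C0 ^ 2 * (lg ^ 2 * ((N : ℝ) ^ (5 / 4 + 3 * c) * (N : ℝ) ^ (1 / 2 + c))) := by ring
      _ = 80 * C0 ^ 2 * (lg ^ 2 * (N : ℝ) ^ (7 / 4 + 4 * c)) := by
          rw [← Real.rpow_add hN0, show (5 / 4 + 3 * c + (1 / 2 + c) : ℝ) = 7 / 4 + 4 * c by ring]
      _ ≤ 80 * C0 ^ 2 * ((5476 * (N : ℝ) ^ (1 / 18 : ℝ)) * (N : ℝ) ^ (7 / 4 + 4 * c)) := by
          have := lg2 hN
          gcongr
      _ = 80 * C0 ^ 2 * 5476 * (N : ℝ) ^ (1 / 18 + (7 / 4 + 4 * c)) := by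
          rw [Real.rpow_add hN0 (1 / 18) (7 / 4 + 4 * c)]
          ring
      _ ≤ 80 * C0 ^ 2 * 5476 * (N : ℝ) ^ 2 := by
          have : (N : ℝ) ^ (1 / 18 + (7 / 4 + 4 * c)) ≤ (N : ℝ) ^ 2 := by
            rw [← Real.rpow_two]
            exact Real.rpow_le_rpow_of_exponent_le hN1 (by linarith)
          gcongr
      _ ≤ _ := by
          have : 0 ≤ C0 ^ 2 * (N : ℝ) ^ 2 := by positivity
          nlinarith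
  constructor
  · have h := base2 hN hX hX2 hc0 hC0 hG W hW hWT (C0 * lg * (N : ℝ) ^ (1 / 2 - c)) (by positivity) hG.hK b hb
    refine h.trans ?_
    calc (80 * C0 * (lg ^ 2 * (N : ℝ) ^ (5 / 4 + 3 * c)) + W.card * (C0 * lg * (N : ℝ) ^ (1 / 2 - c))) *
          ∑ n ∈ Icc 1 X, ‖b n‖ ^ 2
        ≤ (80 * C0 * (lg ^ 2 * (N : ℝ) ^ (5 / 4 + 3 * c)) + W.card * (C0 * lg * (N : ℝ) ^ (1 / 2 - c))) *
          (C0 * (N : ℝ) ^ (1 / 2 + c)) := by gcongr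
      _ = 80 * C0 * (lg ^ 2 * (N : ℝ) ^ (5 / 4 + 3 * c)) * (C0 * (N : ℝ) ^ (1 / 2 + c)) +
          C0 ^ 2 * lg * (W.card * ((N : ℝ) ^ (1 / 2 - c) * (N : ℝ) ^ (1 / 2 + c))) := by ring
      _ = 80 * C0 * (lg ^ 2 * (N : ℝ) ^ (5 / 4 + 3 * c)) * (C0 * (N : ℝ) ^ (1 / 2 + c)) +
          C0 ^ 2 * lg * (W.card * N) := by
          rw [← Real.rpow_add hN0, show (1 / 2 - c + (1 / 2 + c) : ℝ) = 1 by ring, Real.rpow_one]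
      _ ≤ (500000 * C0 ^ 2) * (N : ℝ) ^ 2 + (500000 * C0 ^ 2) * (lg ^ 2 * (W.card * N)) := by
          apply add_le_add hmain
          have h1 : lg ≤ lg ^ 2 := by nlinarith
          have h2 : 0 ≤ (W.card : ℝ) * N := by positivity
          calc C0 ^ 2 * lg * (W.card * N) ≤ C0 ^ 2 * lg ^ 2 * (W.card * N) := by gcongr
            _ = 1 * (C0 ^ 2 * (lg ^ 2 * (W.card * N))) := by ring
            _ ≤ 500000 * (C0 ^ 2 * (lg ^ 2 * (W.card * N))) :=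
                mul_le_mul_of_nonneg_right (by norm_num) (by positivity)
            _ = _ := by ring
      _ = _ := by ring
  · intro hTN
    have h := base2 hN hX hX2 hc0 hC0 hG W hW hWT 0 le_rfl (by
      intro t ht1 ht2
      exfalso
      have hNp : (N : ℝ) ≤ (N : ℝ) ^ (1 + 2 * c) := by
        calc (N : ℝ) = (N : ℝ) ^ (1 : ℝ) := (Real.rpow_one _).symm
          _ ≤ _ := Real.rpow_le_rpow_of_exponent_le hN1 (by linarith)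
      linarith) b hb
    refine h.trans ?_
    rw [mul_zero, add_zero]
    exact (mul_le_mul_of_nonneg_left hsum (by positivity)).trans hmain

/-- large values -/
theorem largeV {N X : ℕ} {w : ℕ → ℝ} {c T C0 : ℝ} (hN : 1 ≤ N) (hX : 1 ≤ X) (hX2 : X ≤ 2 * N) (hc0 : 0 ≤ c)
    (hc : c ≤ 1 / 64) (hC0 : 1 ≤ C0) (hG : GoodW N X w c T C0) (W : Finset ℝ) (hW : Sep W)
    (hWT : ∀ t ∈ W, 0 ≤ t ∧ t ≤ T) (b : ℕ → ℂ) (hb : ∀ n, b n ≠ 0 → 1 ≤ w n) (hb1 : ∀ n, ‖b n‖ ≤ 1)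
    (V : ℝ) (hV : 0 < V) (hVN : 1000000 * C0 ^ 2 * ((1 + Real.log (2 * N)) ^ 2 * N) ≤ V ^ 2)
    (hD : ∀ t ∈ W, V ≤ ‖∑ n ∈ Icc 1 X, b n * ph t n‖) :
    ∑ t ∈ W, ‖∑ n ∈ Icc 1 X, b n * ph t n‖ ^ 2 ≤ 1000000 * C0 ^ 2 * (N : ℝ) ^ 2 ∧
      (W.card : ℝ) ≤ 1000000 * C0 ^ 2 * ((N : ℝ) ^ 2 / V ^ 2) := by
  have h := (base1 hN hX hX2 hc0 hc hC0 hG W hW hWT b hb hb1).1
  have h1 : (W.card : ℝ) * V ^ 2 ≤ ∑ t ∈ W, ‖∑ n ∈ Icc 1 X, b n * ph t n‖ ^ 2 := by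
    calc (W.card : ℝ) * V ^ 2 = ∑ t ∈ W, V ^ 2 := by simp
      _ ≤ _ := by
        apply sum_le_sum
        intro t ht
        exact pow_le_pow_left₀ hV.le (hD t ht) 2
  have h2 : (500000 * C0 ^ 2) * ((1 + Real.log (2 * N)) ^ 2 * (W.card * N)) ≤ (W.card : ℝ) * V ^ 2 / 2 := by
    have h3 : (W.card : ℝ) * (1000000 * C0 ^ 2 * ((1 + Real.log (2 * N)) ^ 2 * N)) ≤ W.card * V ^ 2 :=
      mul_le_mul_of_nonneg_left hVN (Nat.cast_nonneg _)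
    nlinarith
  have h4 : ∑ t ∈ W, ‖∑ n ∈ Icc 1 X, b n * ph t n‖ ^ 2 ≤ 1000000 * C0 ^ 2 * (N : ℝ) ^ 2 := by
    nlinarith
  refine ⟨h4, ?_⟩
  rw [← mul_div_assoc, le_div_iff₀ (by positivity)]
  exact h1.trans h4

end Pool.Agent.R251.MV
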