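import Mathlib

/-!
The set of all `d ≤ N^(θ+c)`, `θ = (k-2)/(2(k-1))`, and restriction of coefficients.
-/

set_option autoImplicit false

namespace Pool.Agent.R251.MV

open Finset

theorem tele {s : ℝ} (hs0 : 0 ≤ s) (hs : s ≤ 1 / 2) (d : ℕ) :
    ((d + 1 : ℕ) : ℝ) ^ (-s) ≤ 2 * (((d + 1 : ℕ) : ℝ) ^ (1 - s) - (d : ℝ) ^ (1 - s)) := by
  have hd0 : (0 : ℝ) < ((d + 1 : ℕ) : ℝ) := by positivity
  set x : ℝ := ((d + 1 : ℕ) : ℝ) with hx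
  have hxd : (d : ℝ) = x - 1 := by rw [hx]; push_cast; ring
  have hx1 : 1 ≤ x := by rw [hx]; push_cast; linarith [Nat.cast_nonneg (α := ℝ) d]
  have h1 : (d : ℝ) ^ (1 - s) ≤ x ^ (1 - s) * (1 - (1 - s) / x) := by
    have h2 : (d : ℝ) = x * (1 + -(1 / x)) := by
      rw [hxd]
      field_simp
      ring
    have h3 : (0 : ℝ) ≤ 1 + -(1 / x) := by
      have : 1 / x ≤ 1 := by rw [div_le_one hd0]; exact hx1
      linarith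
    rw [h2, Real.mul_rpow hd0.le h3]
    apply mul_le_mul_of_nonneg_left _ (by positivity)
    have h4 := rpow_one_add_le_one_add_mul_self (s := -(1 / x)) (by linarith) (p := 1 - s)
      (by linarith) (by linarith)
    refine h4.trans (le_of_eq ?_)
    ring
  have h5 : x ^ (1 - s) = x * x ^ (-s) := by
    rw [sub_eq_add_neg, Real.rpow_add hd0, Real.rpow_one]
  have h6 : x ^ (1 - s) * ((1 - s) / x) = (1 - s) * x ^ (-s) := by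
    rw [h5]
    field_simp
  have h7 : 0 ≤ x ^ (-s) := by positivity
  have h8 : (1 - s) * x ^ (-s) ≤ x ^ (1 - s) - (d : ℝ) ^ (1 - s) := by
    have : x ^ (1 - s) * (1 - (1 - s) / x) = x ^ (1 - s) - (1 - s) * x ^ (-s) := by
      rw [mul_sub, mul_one, h6]
    linarith
  nlinarith

theorem sum_neg_rpow {s : ℝ} (hs0 : 0 ≤ s) (hs : s ≤ 1 / 2) (D : ℕ) :
    ∑ d ∈ Icc 1 D, (d : ℝ) ^ (-s) ≤ 2 * (D : ℝ) ^ (1 - s) := by
  induction D with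
  | zero =>
    simp only [Nat.cast_zero]
    rw [Real.zero_rpow (by linarith)]
    simp
  | succ D ih =>
    rw [sum_Icc_succ_top (by omega)]
    have := tele hs0 hs D
    linarith

theorem fam (k : ℕ) (hk : 2 ≤ k) (c : ℝ) (hc0 : 0 ≤ c) (hc : c ≤ 1 / 64) (N : ℕ) (hN : 1 ≤ N) :
    (∀ d ∈ Icc 1 ⌊(N : ℝ) ^ (((k : ℝ) - 2) / (2 * ((k : ℝ) - 1)) + c)⌋₊,
      1 ≤ d ∧ (d : ℝ) ≤ (N : ℝ) ^ (1 - 1 / 4 : ℝ)) ∧
    ∑ d ∈ Icc 1 ⌊(N : ℝ) ^ (((k : ℝ) - 2) / (2 * ((k : ℝ) - 1)) + c)⌋₊, ((N : ℝ) / d) ^ ((k : ℝ)⁻¹) ≤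
      2 * (N : ℝ) ^ (1 / 2 + c) := by
  have hN1 : (1 : ℝ) ≤ N := by exact_mod_cast hN
  have hN0 : (0 : ℝ) < N := by linarith
  have hk2 : (2 : ℝ) ≤ k := by exact_mod_cast hk
  have hk0 : (0 : ℝ) < k := by linarith
  have hk1 : (0 : ℝ) < (k : ℝ) - 1 := by linarith
  obtain ⟨θ, hθ⟩ : ∃ θ : ℝ, θ = ((k : ℝ) - 2) / (2 * ((k : ℝ) - 1)) := ⟨_, rfl⟩
  rw [← hθ]
  have hθ0 : 0 ≤ θ := by rw [hθ]; apply div_nonneg <;> linarith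
  have hθ1 : θ ≤ 1 / 2 := by
    rw [hθ, div_le_iff₀ (by positivity)]
    linarith
  have hD : (⌊(N : ℝ) ^ (θ + c)⌋₊ : ℝ) ≤ (N : ℝ) ^ (θ + c) := Nat.floor_le (by positivity)
  constructor
  · intro d hd
    rw [mem_Icc] at hd
    refine ⟨hd.1, ?_⟩
    have h1 : (d : ℝ) ≤ (⌊(N : ℝ) ^ (θ + c)⌋₊ : ℝ) := by exact_mod_cast hd.2
    exact (h1.trans hD).trans (Real.rpow_le_rpow_of_exponent_le hN1 (by linarith))
  · have hs0 : 0 ≤ (k : ℝ)⁻¹ := by positivity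
    have hs : (k : ℝ)⁻¹ ≤ 1 / 2 := by
      rw [one_div]
      exact inv_anti₀ (by norm_num) hk2
    have h1 : ∀ d ∈ Icc 1 ⌊(N : ℝ) ^ (θ + c)⌋₊, ((N : ℝ) / d) ^ ((k : ℝ)⁻¹) =
        (N : ℝ) ^ ((k : ℝ)⁻¹) * (d : ℝ) ^ (-(k : ℝ)⁻¹) := by
      intro d hd
      rw [Real.div_rpow hN0.le (Nat.cast_nonneg _), Real.rpow_neg (Nat.cast_nonneg _)]
      rfl
    rw [sum_congr rfl h1, ← mul_sum]
    have h2 := sum_neg_rpow hs0 hs ⌊(N : ℝ) ^ (θ + c)⌋₊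
    have h3 : (⌊(N : ℝ) ^ (θ + c)⌋₊ : ℝ) ^ (1 - (k : ℝ)⁻¹) ≤ (N : ℝ) ^ ((θ + c) * (1 - (k : ℝ)⁻¹)) := by
      rw [Real.rpow_mul hN0.le]
      exact Real.rpow_le_rpow (Nat.cast_nonneg _) hD (by linarith)
    have h4 : (k : ℝ)⁻¹ + (θ + c) * (1 - (k : ℝ)⁻¹) ≤ 1 / 2 + c := by
      have e1 : (k : ℝ)⁻¹ + θ * (1 - (k : ℝ)⁻¹) = 1 / 2 := by
        rw [hθ]
        field_simp
        ring
      have e2 : c * (1 - (k : ℝ)⁻¹) ≤ c := by nlinarith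
      nlinarith
    calc (N : ℝ) ^ ((k : ℝ)⁻¹) * ∑ d ∈ Icc 1 ⌊(N : ℝ) ^ (θ + c)⌋₊, (d : ℝ) ^ (-(k : ℝ)⁻¹)
        ≤ (N : ℝ) ^ ((k : ℝ)⁻¹) * (2 * (N : ℝ) ^ ((θ + c) * (1 - (k : ℝ)⁻¹))) := by
          apply mul_le_mul_of_nonneg_left _ (by positivity)
          linarith
      _ = 2 * (N : ℝ) ^ ((k : ℝ)⁻¹ + (θ + c) * (1 - (k : ℝ)⁻¹)) := by
          rw [Real.rpow_add hN0]
          ring
      _ ≤ _ := by
          have := Real.rpow_le_rpow_of_exponent_le hN1 h4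
          linarith

/-- restriction of the coefficients to `[lo, hi]` -/
def res (lo hi : ℕ) (b : ℕ → ℂ) (n : ℕ) : ℂ := if lo ≤ n ∧ n ≤ hi then b n else 0

theorem res_norm {lo hi : ℕ} {b : ℕ → ℂ} (hb : ∀ n, ‖b n‖ ≤ 1) (n : ℕ) : ‖res lo hi b n‖ ≤ 1 := by
  unfold res
  split_ifs
  · exact hb n
  · simp

theorem res_ne {lo hi : ℕ} {b : ℕ → ℂ} {n : ℕ} (h : res lo hi b n ≠ 0) : n ∈ Icc lo hi ∧ b n ≠ 0 := by
  unfold res at h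
  split_ifs at h with h1
  · exact ⟨mem_Icc.2 h1, h⟩
  · exact absurd rfl h

theorem res_sum {lo hi X : ℕ} (h1 : 1 ≤ lo) (h2 : hi ≤ X) (b g : ℕ → ℂ) :
    ∑ n ∈ Icc lo hi, b n * g n = ∑ n ∈ Icc 1 X, res lo hi b n * g n := by
  symm
  have hsub : Icc lo hi ⊆ Icc 1 X := by
    intro n hn
    rw [mem_Icc] at hn ⊢
    omega
  rw [← sum_subset hsub]
  · apply sum_congr rfl
    intro n hn
    unfold res
    rw [if_pos (mem_Icc.1 hn)]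
  · intro n _ hn
    unfold res
    rw [if_neg (by rwa [mem_Icc] at hn), zero_mul]

theorem res_sq {lo hi X : ℕ} (h1 : 1 ≤ lo) (h2 : hi ≤ X) (b : ℕ → ℂ) :
    ∑ n ∈ Icc 1 X, ‖res lo hi b n‖ ^ 2 = ∑ n ∈ Icc lo hi, ‖b n‖ ^ 2 := by
  have hsub : Icc lo hi ⊆ Icc 1 X := by
    intro n hn
    rw [mem_Icc] at hn ⊢
    omega
  rw [← sum_subset hsub]
  · apply sum_congr rfl
    intro n hn
    unfold res
    rw [if_pos (mem_Icc.1 hn)]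
  · intro n _ hn
    unfold res
    rw [if_neg (by rwa [mem_Icc] at hn), norm_zero]
    norm_num

end Pool.Agent.R251.MV
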