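import Pool.Agent.R251.MV.Base
import Pool.Agent.R251.MV.Fam

/-!
`ℓ^q` norms (MP_2a1f0e_nt): common lemma.
-/

set_option autoImplicit false

namespace Pool.Agent.R251.MV.S2A

open Finset
open Pool.Agent.TH705.DL (ph ph_norm)
open Pool.Agent.R327.SI (lg_pow)

/-- `D(t) = ∑_{N ≤ n ≤ 2N} b_n n^{it}` -/
noncomputable def D (N : ℕ) (b : ℕ → ℂ) (t : ℝ) : ℂ :=
  ∑ n ∈ Icc N (2 * N), b n * Complex.exp (Complex.I * (t : ℂ) * (Real.log (n : ℝ) : ℂ))

theorem key (c C0 q ε : ℝ) (hc0 : 0 ≤ c) (hc : c ≤ 1 / 64) (hC0 : 1 ≤ C0) (hq : 2 ≤ q) (hε : 0 < ε) :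
    ∃ C : ℝ, ∀ (N T : ℕ) (T' : ℝ) (w : ℕ → ℝ), 1 ≤ N → (T : ℝ) ≤ T' →
      GoodW N (2 * N) w c T' C0 → ∀ b : ℕ → ℂ,
      (∀ n, ‖b n‖ ≤ 1) → (∀ n ∈ Icc N (2 * N), b n ≠ 0 → 1 ≤ w n) →
        ∑ t ∈ Icc 1 T, ‖D N b (t : ℝ)‖ ^ q ≤
          C * (N : ℝ) ^ ε * ((N : ℝ) ^ q + T * (N : ℝ) ^ (q / 2)) := by
  classical
  obtain ⟨C1, hC1, hl⟩ := lg_pow q ε (by linarith) hε
  set K : ℝ := 1000000 * C0 ^ 2 with hK
  have hK1 : 1 ≤ K := by rw [hK]; nlinarith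
  have hK0 : 0 < K := by linarith
  refine ⟨2 ^ q * K + K ^ (q / 2) * C1, ?_⟩
  intro N T T' w hN hTT' hG b hb hs
  have hN1 : (1 : ℝ) ≤ N := by exact_mod_cast hN
  have hN0 : (0 : ℝ) < N := by linarith
  have hNe : (1 : ℝ) ≤ (N : ℝ) ^ ε := Real.one_le_rpow hN1 hε.le
  have hq0 : 0 < q := by linarith
  have hsum : ∀ t : ℝ, D N b t = ∑ n ∈ Icc 1 (2 * N), res N (2 * N) b n * ph t n := by
    intro t
    exact res_sum hN le_rfl b (fun n => ph t n)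
  have hbw : ∀ n, res N (2 * N) b n ≠ 0 → 1 ≤ w n := by
    intro n hn
    obtain ⟨h1, h2⟩ := res_ne hn
    exact hs n h1 h2
  have hlog0 : 0 ≤ Real.log (2 * (N : ℝ)) := Real.log_nonneg (by linarith)
  set lg : ℝ := 1 + Real.log (2 * N) with hlg
  have hlg1 : 1 ≤ lg := by rw [hlg]; linarith
  obtain ⟨B, hB⟩ : ∃ B : ℝ, B = Real.sqrt (K * (lg ^ 2 * N)) := ⟨_, rfl⟩
  have hBsq : B ^ 2 = K * (lg ^ 2 * N) := by rw [hB, Real.sq_sqrt (by positivity)]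
  have hB0 : 0 < B := by rw [hB]; positivity
  -- the set of large values
  set W0 : Finset ℕ := (Icc 1 T).filter (fun t : ℕ => B ≤ ‖D N b (t : ℝ)‖) with hW0
  set W : Finset ℝ := W0.image (fun t : ℕ => (t : ℝ)) with hW
  have hinj : Set.InjOn (fun t : ℕ => (t : ℝ)) (W0 : Set ℕ) := fun _ _ _ _ h => Nat.cast_injective h
  have hWsep : ∀ t ∈ W, ∀ u ∈ W, t ≠ u → 1 ≤ |t - u| := by
    intro t ht u hu hne
    rw [hW, mem_image] at ht hu
    obtain ⟨i, _, rfl⟩ := ht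
    obtain ⟨j, _, rfl⟩ := hu
    have hij : (i : ℤ) - j ≠ 0 := by
      intro h
      apply hne
      have : (i : ℤ) = j := by linarith
      have h2 : i = j := by exact_mod_cast this
      rw [h2]
    have h1 : (1 : ℤ) ≤ |(i : ℤ) - j| := Int.one_le_abs hij
    have h2 : ((1 : ℤ) : ℝ) ≤ ((|(i : ℤ) - j| : ℤ) : ℝ) := by exact_mod_cast h1
    push_cast at h2
    exact h2
  have hWT : ∀ t ∈ W, (0 : ℝ) ≤ t ∧ t ≤ T' := by
    intro t ht
    rw [hW, mem_image] at ht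
    obtain ⟨i, hi, rfl⟩ := ht
    have h1 := (mem_Icc.1 (mem_filter.1 hi).1).2
    refine ⟨Nat.cast_nonneg i, le_trans ?_ hTT'⟩
    exact_mod_cast h1
  have hlarge := (largeV hN (by omega) le_rfl hc0 hc hC0 hG W hWsep hWT (res N (2 * N) b) hbw
    (res_norm hb) B hB0 (by rw [hBsq])
    (by
      intro t ht
      rw [hW, mem_image] at ht
      obtain ⟨i, hi, rfl⟩ := ht
      have := (mem_filter.1 hi).2
      rwa [hsum] at this)).1
  have hlarge2 : ∑ t ∈ W0, ‖D N b (t : ℝ)‖ ^ 2 ≤ K * (N : ℝ) ^ 2 := by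
    refine le_trans (le_of_eq ?_) hlarge
    rw [hW, sum_image hinj]
    apply sum_congr rfl
    intro t _
    rw [hsum]
  -- trivial bound
  have htriv : ∀ t : ℝ, ‖D N b t‖ ≤ 2 * N := by
    intro t
    unfold D
    refine (norm_sum_le _ _).trans ?_
    calc ∑ n ∈ Icc N (2 * N), ‖b n * Complex.exp (Complex.I * (t : ℂ) * (Real.log (n : ℝ) : ℂ))‖
        ≤ ∑ n ∈ Icc N (2 * N), (1 : ℝ) := by
          apply sum_le_sum
          intro n _
          have h2 : ‖Complex.exp (Complex.I * (t : ℂ) * (Real.log (n : ℝ) : ℂ))‖ = 1 :=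
            ph_norm t n
          rw [norm_mul, h2, mul_one]
          exact hb n
      _ = (N : ℝ) + 1 := by
          rw [sum_const, Nat.card_Icc, nsmul_eq_mul, mul_one]
          have : 2 * N + 1 - N = N + 1 := by omega
          rw [this]
          push_cast
          ring
      _ ≤ 2 * N := by linarith
  have hL : ∑ t ∈ W0, ‖D N b (t : ℝ)‖ ^ q ≤ 2 ^ q * K * (N : ℝ) ^ q := by
    have h1 : ∀ t ∈ W0, ‖D N b (t : ℝ)‖ ^ q ≤ (2 * (N : ℝ)) ^ (q - 2) * ‖D N b (t : ℝ)‖ ^ 2 := by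
      intro t ht
      have hpos : 0 < ‖D N b (t : ℝ)‖ := lt_of_lt_of_le hB0 (mem_filter.1 ht).2
      calc ‖D N b (t : ℝ)‖ ^ q = ‖D N b (t : ℝ)‖ ^ (q - 2) * ‖D N b (t : ℝ)‖ ^ 2 := by
            rw [← Real.rpow_natCast ‖D N b (t : ℝ)‖ 2, ← Real.rpow_add hpos]
            congr 1
            push_cast
            ring
        _ ≤ _ := by
            apply mul_le_mul_of_nonneg_right _ (by positivity)
            exact Real.rpow_le_rpow hpos.le (htriv t) (by linarith)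
    calc ∑ t ∈ W0, ‖D N b (t : ℝ)‖ ^ q ≤
          ∑ t ∈ W0, (2 * (N : ℝ)) ^ (q - 2) * ‖D N b (t : ℝ)‖ ^ 2 := sum_le_sum h1
      _ = (2 * (N : ℝ)) ^ (q - 2) * ∑ t ∈ W0, ‖D N b (t : ℝ)‖ ^ 2 := by rw [mul_sum]
      _ ≤ (2 * (N : ℝ)) ^ (q - 2) * (K * (N : ℝ) ^ 2) := by gcongr
      _ ≤ (2 * (N : ℝ)) ^ (q - 2) * (K * (2 * (N : ℝ)) ^ 2) := by
          have : (N : ℝ) ^ 2 ≤ (2 * (N : ℝ)) ^ 2 := pow_le_pow_left₀ hN0.le (by linarith) 2
          gcongr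
      _ = K * (2 * (N : ℝ)) ^ q := by
          have h2N : 0 < 2 * (N : ℝ) := by linarith
          have : (2 * (N : ℝ)) ^ q = (2 * (N : ℝ)) ^ (q - 2) * (2 * (N : ℝ)) ^ 2 := by
            rw [← Real.rpow_natCast (2 * (N : ℝ)) 2, ← Real.rpow_add h2N]
            congr 1
            push_cast
            ring
          rw [this]
          ring
      _ = _ := by rw [Real.mul_rpow (by norm_num) hN0.le]; ring
  have hS : ∑ t ∈ (Icc 1 T).filter (fun t : ℕ => ¬ B ≤ ‖D N b (t : ℝ)‖), ‖D N b (t : ℝ)‖ ^ q ≤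
      T * (K ^ (q / 2) * C1 * (N : ℝ) ^ ε * (N : ℝ) ^ (q / 2)) := by
    have hBq : B ^ q = K ^ (q / 2) * (lg ^ q * (N : ℝ) ^ (q / 2)) := by
      have h1 : B ^ q = (B ^ 2) ^ (q / 2) := by
        rw [← Real.rpow_natCast B 2, ← Real.rpow_mul hB0.le]
        congr 1
        push_cast
        ring
      rw [h1, hBsq, Real.mul_rpow hK0.le (by positivity), Real.mul_rpow (by positivity) hN0.le]
      congr 2
      rw [← Real.rpow_natCast lg 2, ← Real.rpow_mul (by linarith)]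
      congr 1
      push_cast
      ring
    have h1 : ∀ t ∈ (Icc 1 T).filter (fun t : ℕ => ¬ B ≤ ‖D N b (t : ℝ)‖), ‖D N b (t : ℝ)‖ ^ q ≤
        K ^ (q / 2) * C1 * (N : ℝ) ^ ε * (N : ℝ) ^ (q / 2) := by
      intro t ht
      have h2 := (mem_filter.1 ht).2
      rw [not_le] at h2
      calc ‖D N b (t : ℝ)‖ ^ q ≤ B ^ q := Real.rpow_le_rpow (norm_nonneg _) h2.le hq0.le
        _ = K ^ (q / 2) * (lg ^ q * (N : ℝ) ^ (q / 2)) := hBq
        _ ≤ K ^ (q / 2) * ((C1 * (N : ℝ) ^ ε) * (N : ℝ) ^ (q / 2)) := by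
            have := hl N hN
            gcongr
        _ = _ := by ring
    refine (sum_le_card_nsmul _ _ _ h1).trans ?_
    rw [nsmul_eq_mul]
    have h2 : (((Icc 1 T).filter (fun t : ℕ => ¬ B ≤ ‖D N b (t : ℝ)‖)).card : ℝ) ≤ T := by
      have := card_filter_le (Icc 1 T) (fun t : ℕ => ¬ B ≤ ‖D N b (t : ℝ)‖)
      rw [Nat.card_Icc] at this
      simp only [add_tsub_cancel_right] at this
      exact_mod_cast this
    gcongr
  rw [← sum_filter_add_sum_filter_not (Icc 1 T) (fun t : ℕ => B ≤ ‖D N b (t : ℝ)‖)]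
  have hKq : 0 ≤ K ^ (q / 2) * C1 := by
    have : 0 ≤ C1 := by linarith
    positivity
  have h2q : 0 ≤ (2 : ℝ) ^ q * K := by positivity
  calc _ ≤ 2 ^ q * K * (N : ℝ) ^ q + T * (K ^ (q / 2) * C1 * (N : ℝ) ^ ε * (N : ℝ) ^ (q / 2)) :=
        add_le_add hL hS
    _ ≤ (2 ^ q * K + K ^ (q / 2) * C1) * (N : ℝ) ^ ε * (N : ℝ) ^ q +
        (2 ^ q * K + K ^ (q / 2) * C1) * (N : ℝ) ^ ε * (T * (N : ℝ) ^ (q / 2)) := by
        apply add_le_add
        · apply mul_le_mul_of_nonneg_right _ (by positivity)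
          calc 2 ^ q * K ≤ (2 ^ q * K + K ^ (q / 2) * C1) * 1 := by linarith
            _ ≤ _ := by gcongr
        · calc (T : ℝ) * (K ^ (q / 2) * C1 * (N : ℝ) ^ ε * (N : ℝ) ^ (q / 2)) =
              (K ^ (q / 2) * C1) * (N : ℝ) ^ ε * (T * (N : ℝ) ^ (q / 2)) := by ring
            _ ≤ _ := by
              gcongr
              linarith
    _ = _ := by ring

end Pool.Agent.R251.MV.S2A
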