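import Pool.Agent.R251.MV.Base
import Pool.Agent.R251.MV.Fam

/-!
Mean squares over well-spaced sets (MP_71ac24_nt): common lemma.
-/

set_option autoImplicit false

namespace Pool.Agent.R251.MV.S71

open Finset
open Pool.Agent.TH705.DL (ph ph_norm)
open Pool.Agent.R327.SI (lg_sq)

/-- `D(t) = ∑_{n ≤ N} a_n n^{it}` -/
noncomputable def D (N : ℕ) (a : ℕ → ℂ) (t : ℝ) : ℂ :=
  ∑ n ∈ Icc 1 N, a n * Complex.exp (Complex.I * (t : ℂ) * (Real.log (n : ℝ) : ℂ))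

theorem key (c C0 ε : ℝ) (hc0 : 0 ≤ c) (hc : c ≤ 1 / 64) (hC0 : 1 ≤ C0) (hε : 0 < ε) :
    ∃ C : ℝ, ∀ (N : ℕ) (T T' : ℝ) (w : ℕ → ℝ), 1 ≤ N → T ≤ T' → GoodW N N w c T' C0 → ∀ a : ℕ → ℂ,
      (∀ n ∈ Icc 1 N, a n ≠ 0 → 1 ≤ w n) →
      ∀ S : Finset ℝ, (∀ t ∈ S, 0 ≤ t ∧ t ≤ T) → (∀ t ∈ S, ∀ u ∈ S, t ≠ u → 1 ≤ |t - u|) →
        (∑ t ∈ S, ‖D N a t‖ ^ 2 ≤ C * (N : ℝ) ^ ε *
          ((N : ℝ) ^ (4 / 3 : ℝ) + S.card * (N : ℝ) ^ (1 / 2 - c)) * ∑ n ∈ Icc 1 N, ‖a n‖ ^ 2) ∧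
        ((∀ n, ‖a n‖ ≤ 1) → ∑ t ∈ S, ‖D N a t‖ ^ 2 ≤ C * (N : ℝ) ^ ε * (N + S.card) * N) := by
  obtain ⟨C1, hC1, hl⟩ := lg_sq ε hε
  refine ⟨500000 * C0 ^ 2 * C1, ?_⟩
  intro N T T' w hN hTT' hG a hs S hS hsep
  have hN1 : (1 : ℝ) ≤ N := by exact_mod_cast hN
  have hN0 : (0 : ℝ) < N := by linarith
  have hNe : (1 : ℝ) ≤ (N : ℝ) ^ ε := Real.one_le_rpow hN1 hε.le
  have hsum : ∀ t : ℝ, D N a t = ∑ n ∈ Icc 1 N, res 1 N a n * ph t n := by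
    intro t
    exact res_sum le_rfl le_rfl a (fun n => ph t n)
  have hbw : ∀ n, res 1 N a n ≠ 0 → 1 ≤ w n := by
    intro n hn
    obtain ⟨h1, h2⟩ := res_ne hn
    exact hs n h1 h2
  have hS' : ∀ t ∈ S, 0 ≤ t ∧ t ≤ T' := fun t ht => ⟨(hS t ht).1, (hS t ht).2.trans hTT'⟩
  have hlog0 : 0 ≤ Real.log (2 * (N : ℝ)) := Real.log_nonneg (by linarith)
  set lg : ℝ := 1 + Real.log (2 * N) with hlg
  have hlg1 : 1 ≤ lg := by rw [hlg]; linarith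
  have hlgN := hl N hN
  rw [← hlg] at hlgN
  have e0 : ∑ t ∈ S, ‖D N a t‖ ^ 2 = ∑ t ∈ S, ‖∑ n ∈ Icc 1 N, res 1 N a n * ph t n‖ ^ 2 := by
    apply sum_congr rfl
    intro t _
    rw [hsum t]
  rw [e0]
  have hC02 : C0 ≤ C0 ^ 2 := by nlinarith
  constructor
  · have h := base2 hN hN (by omega) hc0 hC0 hG S hsep hS' (C0 * lg * (N : ℝ) ^ (1 / 2 - c))
      (by positivity) hG.hK (res 1 N a) hbw
    rw [res_sq le_rfl le_rfl a] at h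
    refine h.trans ?_
    have hG0 : 0 ≤ ∑ n ∈ Icc 1 N, ‖a n‖ ^ 2 := sum_nonneg fun _ _ => by positivity
    apply mul_le_mul_of_nonneg_right _ hG0
    have e1 : (N : ℝ) ^ (5 / 4 + 3 * c) ≤ (N : ℝ) ^ (4 / 3 : ℝ) :=
      Real.rpow_le_rpow_of_exponent_le hN1 (by linarith)
    have hll : lg ≤ lg ^ 2 := by nlinarith
    have hSc : (0 : ℝ) ≤ S.card := Nat.cast_nonneg _
    have a1 : 80 * C0 * (lg ^ 2 * (N : ℝ) ^ (5 / 4 + 3 * c)) ≤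
        500000 * C0 ^ 2 * C1 * (N : ℝ) ^ ε * (N : ℝ) ^ (4 / 3 : ℝ) := by
      calc 80 * C0 * (lg ^ 2 * (N : ℝ) ^ (5 / 4 + 3 * c))
          ≤ 500000 * C0 ^ 2 * ((C1 * (N : ℝ) ^ ε) * (N : ℝ) ^ (4 / 3 : ℝ)) := by
            apply mul_le_mul (by nlinarith) _ (by positivity) (by positivity)
            gcongr
        _ = _ := by ring
    have a2 : (S.card : ℝ) * (C0 * lg * (N : ℝ) ^ (1 / 2 - c)) ≤
        500000 * C0 ^ 2 * C1 * (N : ℝ) ^ ε * (S.card * (N : ℝ) ^ (1 / 2 - c)) := by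
      calc (S.card : ℝ) * (C0 * lg * (N : ℝ) ^ (1 / 2 - c))
          = C0 * (lg * (S.card * (N : ℝ) ^ (1 / 2 - c))) := by ring
        _ ≤ 500000 * C0 ^ 2 * ((C1 * (N : ℝ) ^ ε) * (S.card * (N : ℝ) ^ (1 / 2 - c))) := by
            apply mul_le_mul (by nlinarith) _ (by positivity) (by positivity)
            exact mul_le_mul_of_nonneg_right (hll.trans hlgN) (by positivity)
        _ = _ := by ring
    calc _ ≤ 500000 * C0 ^ 2 * C1 * (N : ℝ) ^ ε * (N : ℝ) ^ (4 / 3 : ℝ) +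
          500000 * C0 ^ 2 * C1 * (N : ℝ) ^ ε * (S.card * (N : ℝ) ^ (1 / 2 - c)) := add_le_add a1 a2
      _ = _ := by ring
  · intro ha
    have h := (base1 hN hN (by omega) hc0 hc hC0 hG S hsep hS' (res 1 N a) hbw (res_norm ha)).1
    refine h.trans ?_
    rw [← hlg]
    have hX : 1 ≤ C1 * (N : ℝ) ^ ε := one_le_mul_of_one_le_of_one_le hC1 hNe
    calc 500000 * C0 ^ 2 * ((N : ℝ) ^ 2 + lg ^ 2 * (S.card * N))
        ≤ 500000 * C0 ^ 2 * ((C1 * (N : ℝ) ^ ε) * (N : ℝ) ^ 2 + (C1 * (N : ℝ) ^ ε) * (S.card * N)) := by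
          apply mul_le_mul_of_nonneg_left _ (by positivity)
          apply add_le_add
          · exact le_mul_of_one_le_left (by positivity) hX
          · exact mul_le_mul_of_nonneg_right hlgN (by positivity)
      _ = _ := by ring

end Pool.Agent.R251.MV.S71
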