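import Pool.Agent.R251.MV.Base
import Pool.Agent.R251.MV.Fam

/-!
Large values (MP_a93a41_nt): common lemma.
-/

set_option autoImplicit false

namespace Pool.Agent.R251.MV.A9

open Finset
open Pool.Agent.TH705.DL (ph ph_norm)
open Pool.Agent.R327.SI (small_or card_sep)

/-- `D(it) = ∑_{n ≤ N} a_n n^{-it}` -/
noncomputable def D (N : ℕ) (a : ℕ → ℂ) (t : ℝ) : ℂ :=
  ∑ n ∈ Icc 1 N, a n * Complex.exp (-(Complex.I * (t : ℂ) * (Real.log (n : ℝ) : ℂ)))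

theorem key (c C0 ε : ℝ) (hc0 : 0 ≤ c) (hc : c ≤ 1 / 64) (hC0 : 1 ≤ C0) (hε : 0 < ε) :
    ∃ C : ℝ, 1 ≤ C ∧ ∀ (N : ℕ) (T V : ℝ) (w : ℕ → ℝ), 1 ≤ N → 1 ≤ T → 0 < V → N * T ^ ε ≤ V ^ 2 →
      GoodW N N w c ((N : ℝ) ^ (1 / ε)) C0 → ∀ a : ℕ → ℂ, (∀ n, ‖a n‖ ≤ 1) →
      (∀ n ∈ Icc 1 N, a n ≠ 0 → 1 ≤ w n) →
      ∀ S : Finset ℝ, (∀ t ∈ S, 0 ≤ t ∧ t ≤ T) → (∀ t ∈ S, ∀ u ∈ S, t ≠ u → 1 ≤ |t - u|) →
        (∀ t ∈ S, V ≤ ‖D N a t‖) → (S.card : ℝ) ≤ C * ((N : ℝ) ^ 2 / V ^ 2 * T ^ ε) := by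
  obtain ⟨M0, hM0, hsm⟩ := small_or (1000000 * C0 ^ 2) ε (by nlinarith) hε
  refine ⟨1000000 * C0 ^ 2 + 2 * M0 ^ (1 / ε), ?_, ?_⟩
  · have : 0 ≤ 2 * M0 ^ (1 / ε) := by positivity
    nlinarith
  intro N T V w hN hT hV hVN hG a ha hs S hS hsep hD
  have hN1 : (1 : ℝ) ≤ N := by exact_mod_cast hN
  have hN0 : (0 : ℝ) < N := by linarith
  have hT0 : 0 < T := by linarith
  have hTe : (1 : ℝ) ≤ T ^ ε := Real.one_le_rpow hT hε.le
  have hM00 : 0 < M0 := by linarith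
  have hB0 : 0 ≤ 2 * M0 ^ (1 / ε) := by positivity
  rcases S.eq_empty_or_nonempty with hSe | ⟨t0, ht0⟩
  · rw [hSe]
    simp only [card_empty, Nat.cast_zero]
    positivity
  -- conjugation
  set b : ℕ → ℂ := fun n => (starRingEnd ℂ) (a n) with hb
  have hb1 : ∀ n, ‖b n‖ ≤ 1 := by
    intro n
    rw [hb]
    simp only [RCLike.norm_conj]
    exact ha n
  have hconj : ∀ t : ℝ, ‖D N a t‖ = ‖∑ n ∈ Icc 1 N, b n * ph t n‖ := by
    intro t
    rw [← RCLike.norm_conj]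
    congr 1
    unfold D
    rw [map_sum]
    apply sum_congr rfl
    intro n _
    rw [map_mul, ← Complex.exp_conj]
    congr 1
    unfold ph
    congr 1
    rw [map_neg, map_mul, map_mul, Complex.conj_I, Complex.conj_ofReal, Complex.conj_ofReal]
    ring
  have hVN' : V ≤ N := by
    refine (hD t0 ht0).trans ?_
    rw [hconj]
    refine (norm_sum_le _ _).trans ?_
    calc ∑ n ∈ Icc 1 N, ‖b n * ph t0 n‖ ≤ ∑ n ∈ Icc 1 N, (1 : ℝ) := by
          apply sum_le_sum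
          intro n _
          rw [norm_mul, ph_norm, mul_one]
          exact hb1 n
      _ = N := by simp
  have hTN : T ≤ (N : ℝ) ^ (1 / ε) := by
    have h1 : T ^ ε ≤ N := by
      have h2 : (N : ℝ) * T ^ ε ≤ N * N := by
        refine hVN.trans ?_
        nlinarith
      exact le_of_mul_le_mul_left h2 hN0
    calc T = (T ^ ε) ^ (1 / ε) := by
          rw [← Real.rpow_mul hT0.le]
          have : ε * (1 / ε) = 1 := by field_simp
          rw [this, Real.rpow_one]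
      _ ≤ (N : ℝ) ^ (1 / ε) := Real.rpow_le_rpow (by positivity) h1 (by positivity)
  have hq1 : 1 ≤ (N : ℝ) ^ 2 / V ^ 2 * T ^ ε := by
    have : 1 ≤ (N : ℝ) ^ 2 / V ^ 2 := by
      rw [one_le_div (by positivity)]
      exact pow_le_pow_left₀ hV.le hVN' 2
    exact one_le_mul_of_one_le_of_one_le this hTe
  have hG' : GoodW N N w c T C0 := ⟨hG.hw0, hG.hw1, hG.hw2, fun t h1 h2 => hG.hK t h1 (h2.trans hTN)⟩
  have hsum : ∀ t : ℝ, ‖D N a t‖ = ‖∑ n ∈ Icc 1 N, res 1 N b n * ph t n‖ := by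
    intro t
    rw [hconj, res_sum le_rfl le_rfl b (fun n => ph t n)]
  have hbw : ∀ n, res 1 N b n ≠ 0 → 1 ≤ w n := by
    intro n hn
    obtain ⟨h1, h2⟩ := res_ne hn
    apply hs n h1
    intro h0
    apply h2
    simp only [hb, h0, map_zero]
  rcases le_or_gt T N with hTc | hTc
  · have h := (base1 hN hN (by omega) hc0 hc hC0 hG' S hsep hS (res 1 N b) hbw (res_norm hb1)).2 hTc
    have h1 : (S.card : ℝ) * V ^ 2 ≤ 500000 * C0 ^ 2 * (N : ℝ) ^ 2 := by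
      calc (S.card : ℝ) * V ^ 2 = ∑ t ∈ S, V ^ 2 := by simp
        _ ≤ ∑ t ∈ S, ‖∑ n ∈ Icc 1 N, res 1 N b n * ph t n‖ ^ 2 := by
          apply sum_le_sum
          intro t ht
          rw [← hsum]
          exact pow_le_pow_left₀ hV.le (hD t ht) 2
        _ ≤ _ := h
    have h2 : (S.card : ℝ) ≤ 500000 * C0 ^ 2 * ((N : ℝ) ^ 2 / V ^ 2) := by
      rw [← mul_div_assoc, le_div_iff₀ (by positivity)]
      exact h1
    have h3 : 0 ≤ (N : ℝ) ^ 2 / V ^ 2 := by positivity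
    calc (S.card : ℝ) ≤ 500000 * C0 ^ 2 * ((N : ℝ) ^ 2 / V ^ 2) * 1 := by rw [mul_one]; exact h2
      _ ≤ (1000000 * C0 ^ 2 + 2 * M0 ^ (1 / ε)) * ((N : ℝ) ^ 2 / V ^ 2) * T ^ ε := by
          apply mul_le_mul _ hTe (by norm_num) (by positivity)
          apply mul_le_mul_of_nonneg_right _ h3
          nlinarith
      _ = _ := by ring
  · rcases hsm N hN with h1 | h1
    · have hcard := card_sep S hsep 0 T hT0.le hS
      have h2 : T ≤ M0 ^ (1 / ε) := hTN.trans (Real.rpow_le_rpow hN0.le h1 (by positivity))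
      calc (S.card : ℝ) ≤ 2 * M0 ^ (1 / ε) := by linarith
        _ = 2 * M0 ^ (1 / ε) * 1 := by ring
        _ ≤ (1000000 * C0 ^ 2 + 2 * M0 ^ (1 / ε)) * ((N : ℝ) ^ 2 / V ^ 2 * T ^ ε) := by
            have : 0 ≤ 1000000 * C0 ^ 2 := by positivity
            apply mul_le_mul _ hq1 (by norm_num) (by positivity)
            linarith
    · have h2 : 1000000 * C0 ^ 2 * ((1 + Real.log (2 * N)) ^ 2 * N) ≤ V ^ 2 := by
        refine h1.trans (le_trans ?_ hVN)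
        rw [Real.rpow_add hN0, Real.rpow_one]
        gcongr
      have h3 := (largeV hN hN (by omega) hc0 hc hC0 hG' S hsep hS (res 1 N b) hbw (res_norm hb1) V hV h2
        (fun t ht => by rw [← hsum t]; exact hD t ht)).2
      have h4 : 0 ≤ (N : ℝ) ^ 2 / V ^ 2 := by positivity
      calc (S.card : ℝ) ≤ 1000000 * C0 ^ 2 * ((N : ℝ) ^ 2 / V ^ 2) := h3
        _ = 1000000 * C0 ^ 2 * ((N : ℝ) ^ 2 / V ^ 2) * 1 := by ring
        _ ≤ (1000000 * C0 ^ 2 + 2 * M0 ^ (1 / ε)) * ((N : ℝ) ^ 2 / V ^ 2) * T ^ ε := by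
            apply mul_le_mul _ hTe (by norm_num) (by positivity)
            apply mul_le_mul_of_nonneg_right _ h4
            linarith
        _ = _ := by ring

end Pool.Agent.R251.MV.A9
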