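import Pool.Agent.R251.MV.Base
import Pool.Agent.R251.MV.Fam
import Pool.Agent.R327.SIEcd

/-!
Large values (MP_ecd12e_nt): common lemma.
-/

set_option autoImplicit false

namespace Pool.Agent.R251.MV.Ecd

open Finset
open Pool.Agent.TH705.DL (ph ph_norm)
open Pool.Agent.R327.SI.Ecd (D NoLoss)

theorem key (c C0 : ℝ) (hc0 : 0 ≤ c) (hc : c ≤ 1 / 64) (hC0 : 1 ≤ C0) (N : ℕ) (T T' : ℝ) (w : ℕ → ℝ)
    (hN : 1 ≤ N) (hTT' : T ≤ T') (hG : GoodW N (2 * N) w c T' C0) (b : ℕ → ℂ)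
    (hb : ∀ n, ‖b n‖ ≤ 1) (hs : ∀ n ∈ Icc N (2 * N), b n ≠ 0 → 1 ≤ w n) :
    NoLoss N T (4000000 * C0 ^ 2) b := by
  intro W V hW hsep hV hVN hD
  have hN1 : (1 : ℝ) ≤ N := by exact_mod_cast hN
  have hlog0 : 0 ≤ Real.log (N : ℝ) := Real.log_nonneg hN1
  have hsum : ∀ t : ℝ, D N b t = ∑ n ∈ Icc 1 (2 * N), res N (2 * N) b n * ph t n := by
    intro t
    exact res_sum hN le_rfl b (fun n => ph t n)
  have hbw : ∀ n, res N (2 * N) b n ≠ 0 → 1 ≤ w n := by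
    intro n hn
    obtain ⟨h1, h2⟩ := res_ne hn
    exact hs n h1 h2
  have hlg : 1 + Real.log (2 * (N : ℝ)) ≤ 2 * (1 + Real.log N) := by
    rw [Real.log_mul (by norm_num) (by positivity)]
    have := Real.log_two_lt_d9
    linarith
  have hlg0 : 0 ≤ 1 + Real.log (2 * (N : ℝ)) := by
    have := Real.log_nonneg (x := 2 * (N : ℝ)) (by linarith)
    linarith
  have h := (largeV hN (by omega) le_rfl hc0 hc hC0 hG W hsep
    (fun t ht => ⟨(hW t ht).1, (hW t ht).2.trans hTT'⟩) (res N (2 * N) b) hbw (res_norm hb) V hV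
    (by
      refine le_trans ?_ hVN
      calc 1000000 * C0 ^ 2 * ((1 + Real.log (2 * N)) ^ 2 * N) ≤
            1000000 * C0 ^ 2 * ((2 * (1 + Real.log N)) ^ 2 * N) := by gcongr
        _ = _ := by ring)
    (fun t ht => by rw [← hsum t]; exact hD t ht)).2
  refine h.trans ?_
  rw [← mul_div_assoc]
  have : 1000000 * C0 ^ 2 * (N : ℝ) ^ 2 ≤ 4000000 * C0 ^ 2 * (N : ℝ) ^ 2 := by
    have h1 : 0 ≤ C0 ^ 2 * (N : ℝ) ^ 2 := by positivity
    nlinarith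
  gcongr

end Pool.Agent.R251.MV.Ecd
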