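import Pool.Agent.R327.SIFin

/-!
Initial segments of zeta sums: `|∑_{a ≤ X} a^{iu}| ≤ C (1 + log 2X) X^(1-c)` for `X^(1+2c) ≤ |u| ≤ (2X)^A`.
-/

set_option autoImplicit false

namespace Pool.Agent.R251.MV

open Finset
open Pool.Agent.TH705.DL (ph ph_norm)
open Pool.Agent.R327.SI (kerAP)

theorem zseg (c C : ℝ) (hc0 : 0 < c) (hc : c ≤ 1 / 64) (hC : 1 ≤ C) (X : ℕ) (hX : 1 ≤ X) (u : ℝ)
    (hk : ∀ Y L : ℕ, 1 ≤ Y → X ≤ Y * Y → Y ≤ X → L ≤ Y → (L : ℝ) ≤ 2 * (Y : ℝ) ^ (1 / 2 + c) →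
      ‖∑ j ∈ range L, ph u (Y + j)‖ ≤ C * (1 + Real.log (2 * Y)) * (Y : ℝ) ^ (1 / 2 - c)) :
    ∀ m Y : ℕ, 1 ≤ Y → X ≤ Y * Y → Y + m ≤ X + 1 →
      ‖∑ j ∈ range m, ph u (Y + j)‖ ≤
        2 * C * (1 + Real.log (2 * X)) * (X : ℝ) ^ (-c) * m +
          C * (1 + Real.log (2 * X)) * (X : ℝ) ^ (1 / 2 - c) := by
  have hX1 : (1 : ℝ) ≤ X := by exact_mod_cast hX
  have hX0 : (0 : ℝ) < X := by linarith
  have hlogX : 0 ≤ Real.log (2 * (X : ℝ)) := Real.log_nonneg (by linarith)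
  intro m
  induction m using Nat.strong_induction_on with
  | _ m ih =>
    intro Y hY hXY hYm
    rcases Nat.eq_zero_or_pos m with hm0 | hm0
    · rw [hm0]
      simp only [range_zero, sum_empty, norm_zero, Nat.cast_zero, mul_zero, zero_add]
      positivity
    have hYX : Y ≤ X := by omega
    have hY1 : (1 : ℝ) ≤ Y := by exact_mod_cast hY
    have hY0 : (0 : ℝ) < Y := by linarith
    have hYXr : (Y : ℝ) ≤ X := by exact_mod_cast hYX
    have hlogY : Real.log (2 * (Y : ℝ)) ≤ Real.log (2 * X) := Real.log_le_log (by linarith) (by linarith)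
    have hlogY0 : 0 ≤ Real.log (2 * (Y : ℝ)) := Real.log_nonneg (by linarith)
    obtain ⟨L0, hL0⟩ : ∃ L0 : ℕ, L0 = ⌊(Y : ℝ) ^ (1 / 2 + c)⌋₊ := ⟨_, rfl⟩
    have hpow1 : (1 : ℝ) ≤ (Y : ℝ) ^ (1 / 2 + c) := Real.one_le_rpow hY1 (by linarith)
    have hL1 : 1 ≤ L0 := by
      rw [hL0]
      exact Nat.le_floor (by exact_mod_cast hpow1)
    have hLle : (L0 : ℝ) ≤ (Y : ℝ) ^ (1 / 2 + c) := by
      rw [hL0]
      exact Nat.floor_le (by positivity)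
    have hLY : L0 ≤ Y := by
      have : (L0 : ℝ) ≤ Y := hLle.trans (by
        calc (Y : ℝ) ^ (1 / 2 + c) ≤ (Y : ℝ) ^ (1 : ℝ) :=
              Real.rpow_le_rpow_of_exponent_le hY1 (by linarith)
          _ = Y := Real.rpow_one _)
      exact_mod_cast this
    have hLge : (Y : ℝ) ^ (1 / 2 + c) ≤ 2 * L0 := by
      have h1 := Nat.lt_floor_add_one ((Y : ℝ) ^ (1 / 2 + c))
      rw [← hL0] at h1
      have h2 : (1 : ℝ) ≤ L0 := by exact_mod_cast hL1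
      linarith
    have hYpow : (Y : ℝ) ^ (1 / 2 - c) ≤ (X : ℝ) ^ (1 / 2 - c) :=
      Real.rpow_le_rpow hY0.le hYXr (by linarith)
    rcases le_or_gt m L0 with hmL | hmL
    · have h1 : (m : ℝ) ≤ L0 := by exact_mod_cast hmL
      have h := hk Y m hY hXY hYX (hmL.trans hLY) (by linarith)
      have h2 : C * (1 + Real.log (2 * Y)) * (Y : ℝ) ^ (1 / 2 - c) ≤
          C * (1 + Real.log (2 * X)) * (X : ℝ) ^ (1 / 2 - c) := by gcongr
      have h3 : 0 ≤ 2 * C * (1 + Real.log (2 * X)) * (X : ℝ) ^ (-c) * m := by positivity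
      linarith
    · obtain ⟨m', rfl⟩ : ∃ m', m = L0 + m' := ⟨m - L0, by omega⟩
      have hsplit : ∑ j ∈ range (L0 + m'), ph u (Y + j) =
          ∑ j ∈ range L0, ph u (Y + j) + ∑ j ∈ range m', ph u (Y + L0 + j) := by
        rw [sum_range_add]
        congr 1
        apply sum_congr rfl
        intro j _
        rw [add_assoc]
      rw [hsplit]
      refine (norm_add_le _ _).trans ?_
      have h1 := hk Y L0 hY hXY hYX hLY (by linarith)
      have h2 := ih m' (by omega) (Y + L0) (by omega) (by nlinarith) (by omega)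
      have h3 : C * (1 + Real.log (2 * Y)) * (Y : ℝ) ^ (1 / 2 - c) ≤
          2 * C * (1 + Real.log (2 * X)) * (X : ℝ) ^ (-c) * L0 := by
        have e1 : (Y : ℝ) ^ (1 / 2 - c) = (Y : ℝ) ^ (1 / 2 + c) * (Y : ℝ) ^ (-(2 * c)) := by
          rw [← Real.rpow_add hY0]
          congr 1
          ring
        have e2 : (Y : ℝ) ^ (-(2 * c)) ≤ (X : ℝ) ^ (-c) := by
          have e3 : (Y : ℝ) ^ (-(2 * c)) = ((Y : ℝ) ^ 2) ^ (-c) := by
            rw [← Real.rpow_natCast (Y : ℝ) 2, ← Real.rpow_mul hY0.le]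
            congr 1
            push_cast
            ring
          rw [e3]
          apply Real.rpow_le_rpow_of_nonpos hX0 _ (by linarith)
          have : (X : ℝ) ≤ Y * Y := by exact_mod_cast hXY
          rw [sq]
          exact this
        rw [e1]
        calc C * (1 + Real.log (2 * Y)) * ((Y : ℝ) ^ (1 / 2 + c) * (Y : ℝ) ^ (-(2 * c)))
            ≤ C * (1 + Real.log (2 * X)) * ((2 * L0) * (X : ℝ) ^ (-c)) := by gcongr
          _ = _ := by ring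
      push_cast
      have e4 : 2 * C * (1 + Real.log (2 * (X : ℝ))) * (X : ℝ) ^ (-c) * (L0 + m') =
          2 * C * (1 + Real.log (2 * X)) * (X : ℝ) ^ (-c) * L0 +
          2 * C * (1 + Real.log (2 * X)) * (X : ℝ) ^ (-c) * m' := by ring
      rw [e4]
      linarith

theorem zsum (A : ℝ) (hA : 1 ≤ A) : ∃ c : ℝ, 0 < c ∧ c ≤ 1 / 64 ∧ ∃ C : ℝ, 1 ≤ C ∧
    ∀ X : ℕ, 1 ≤ X → ∀ u : ℝ, (X : ℝ) ^ (1 + 2 * c) ≤ |u| → |u| ≤ (2 * X : ℝ) ^ A →
      ‖∑ a ∈ Icc 1 X, ph u a‖ ≤ C * (1 + Real.log (2 * X)) * (X : ℝ) ^ (1 - c) := by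
  obtain ⟨c, hc0, hc, C, hC, h⟩ := kerAP (2 * A) (by linarith)
  refine ⟨c, hc0, hc, 4 * C, by linarith, ?_⟩
  intro X hX u hu1 hu2
  have hX1 : (1 : ℝ) ≤ X := by exact_mod_cast hX
  have hX0 : (0 : ℝ) < X := by linarith
  have hlogX : 0 ≤ Real.log (2 * (X : ℝ)) := Real.log_nonneg (by linarith)
  have hk : ∀ Y L : ℕ, 1 ≤ Y → X ≤ Y * Y → Y ≤ X → L ≤ Y → (L : ℝ) ≤ 2 * (Y : ℝ) ^ (1 / 2 + c) →
      ‖∑ j ∈ range L, ph u (Y + j)‖ ≤ C * (1 + Real.log (2 * Y)) * (Y : ℝ) ^ (1 / 2 - c) := by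
    intro Y L hY hXY hYX hLY hL
    have hY1 : (1 : ℝ) ≤ Y := by exact_mod_cast hY
    have hYXr : (Y : ℝ) ≤ X := by exact_mod_cast hYX
    have hXYr : (X : ℝ) ≤ Y * Y := by exact_mod_cast hXY
    have h1 := h Y Y 1 L hY le_rfl le_rfl (by omega) hL u
      ((Real.rpow_le_rpow (by linarith) hYXr (by linarith)).trans hu1)
      (by
        refine hu2.trans ?_
        rw [Real.rpow_mul (by positivity)]
        apply Real.rpow_le_rpow (by positivity) _ (by linarith)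
        rw [Real.rpow_two]
        nlinarith)
    simpa using h1
  set lg : ℝ := 1 + Real.log (2 * X) with hlg
  have hlg1 : 1 ≤ lg := by linarith
  have hXc : (1 : ℝ) ≤ (X : ℝ) ^ (1 - c) := Real.one_le_rpow hX1 (by linarith)
  rcases Nat.lt_or_ge X 2 with hX2 | hX2
  · have : X = 1 := by omega
    subst this
    simp only [Icc_self, sum_singleton]
    rw [ph_norm]
    have : (1 : ℝ) ≤ C * lg := one_le_mul_of_one_le_of_one_le hC hlg1
    nlinarith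
  set Y0 : ℕ := Nat.sqrt X + 1 with hY0
  have h1 : X < Y0 * Y0 := Nat.lt_succ_sqrt X
  have h2 : Y0 ≤ X := by
    have := Nat.sqrt_lt_self (by omega : 1 < X)
    omega
  have hsq : (Nat.sqrt X : ℝ) ≤ (X : ℝ) ^ (1 / 2 : ℝ) := by
    rw [← Real.sqrt_eq_rpow]
    exact Real.nat_sqrt_le_real_sqrt
  have hsplit : ∑ a ∈ Icc 1 X, ph u a =
      ∑ a ∈ Icc 1 (Nat.sqrt X), ph u a + ∑ j ∈ range (X + 1 - Y0), ph u (Y0 + j) := by
    have e1 : ∑ j ∈ range (X + 1 - Y0), ph u (Y0 + j) = ∑ a ∈ Ico Y0 (X + 1), ph u a := by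
      rw [sum_Ico_eq_sum_range]
    have e2 : Icc 1 X = Ico 1 (X + 1) := by ext n; simp only [mem_Icc, mem_Ico]; omega
    have e3 : Icc 1 (Nat.sqrt X) = Ico 1 Y0 := by ext n; simp only [mem_Icc, mem_Ico]; omega
    rw [e1, e2, e3, sum_Ico_consecutive _ (by omega) (by omega)]
  rw [hsplit]
  refine (norm_add_le _ _).trans ?_
  have h3 : ‖∑ a ∈ Icc 1 (Nat.sqrt X), ph u a‖ ≤ (X : ℝ) ^ (1 / 2 : ℝ) := by
    refine (norm_sum_le _ _).trans ?_
    rw [sum_congr rfl (fun a _ => ph_norm u a)]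
    simp only [sum_const, Nat.card_Icc, add_tsub_cancel_right, nsmul_eq_mul, mul_one]
    exact hsq
  have h4 := zseg c C hc0 hc hC X hX u hk (X + 1 - Y0) Y0 (by omega) h1.le (by omega)
  have h5 : ((X + 1 - Y0 : ℕ) : ℝ) ≤ X := by
    have : X + 1 - Y0 ≤ X := by omega
    exact_mod_cast this
  have h6 : 2 * C * lg * (X : ℝ) ^ (-c) * ((X + 1 - Y0 : ℕ) : ℝ) ≤ 2 * C * lg * (X : ℝ) ^ (1 - c) := by
    calc 2 * C * lg * (X : ℝ) ^ (-c) * ((X + 1 - Y0 : ℕ) : ℝ) ≤ 2 * C * lg * (X : ℝ) ^ (-c) * X := by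
          gcongr
      _ = 2 * C * lg * ((X : ℝ) ^ (-c) * (X : ℝ) ^ (1 : ℝ)) := by rw [Real.rpow_one]; ring
      _ = _ := by
          rw [← Real.rpow_add hX0]
          congr 2
          ring
  have h7 : (X : ℝ) ^ (1 / 2 : ℝ) ≤ (X : ℝ) ^ (1 - c) := Real.rpow_le_rpow_of_exponent_le hX1 (by linarith)
  have h8 : (X : ℝ) ^ (1 / 2 - c) ≤ (X : ℝ) ^ (1 - c) := Real.rpow_le_rpow_of_exponent_le hX1 (by linarith)
  have h9 : C * lg * (X : ℝ) ^ (1 / 2 - c) ≤ C * lg * (X : ℝ) ^ (1 - c) := by gcongr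
  have h10 : (X : ℝ) ^ (1 - c) ≤ C * lg * (X : ℝ) ^ (1 - c) := by
    have : (1 : ℝ) ≤ C * lg := one_le_mul_of_one_le_of_one_le hC hlg1
    nlinarith
  calc _ ≤ (X : ℝ) ^ (1 / 2 : ℝ) + (2 * C * lg * (X : ℝ) ^ (-c) * ((X + 1 - Y0 : ℕ) : ℝ) +
          C * lg * (X : ℝ) ^ (1 / 2 - c)) := add_le_add h3 h4
    _ ≤ C * lg * (X : ℝ) ^ (1 - c) + (2 * C * lg * (X : ℝ) ^ (1 - c) + C * lg * (X : ℝ) ^ (1 - c)) := by
        linarith
    _ = 4 * C * lg * (X : ℝ) ^ (1 - c) := by ring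

end Pool.Agent.R251.MV
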