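import Pool.Agent.R251.MV.Wls
import Pool.Agent.R251.MV.Zs
import Pool.Agent.H510R2.Div

/-!
The weight counting the `d ∈ B` with `n = a^k d` and its kernel.
-/

set_option autoImplicit false

namespace Pool.Agent.R251.MV

open Finset
open Pool.Agent.TH705.DL (ph ph_norm)

open Classical in
/-- the `d ∈ B` such that `n = a^k d` for some `a ≥ 1` -/
noncomputable def rep (k : ℕ) (B : Finset ℕ) (n : ℕ) : Finset ℕ :=
  B.filter (fun d => ∃ a : ℕ, 1 ≤ a ∧ a ^ k * d = n)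

/-- the weight -/
noncomputable def wt (k : ℕ) (B : Finset ℕ) (n : ℕ) : ℝ := ((rep k B n).card : ℝ)

/-- number of `a ≥ 1` with `a^k d ≤ X` -/
noncomputable def rt (k X d : ℕ) : ℕ := ⌊((X : ℝ) / d) ^ ((k : ℝ)⁻¹)⌋₊

theorem le_rt {k X d a : ℕ} (hk : 1 ≤ k) (hd : 1 ≤ d) : a ≤ rt k X d ↔ a ^ k * d ≤ X := by
  have hk0 : (0 : ℝ) < k := by exact_mod_cast hk
  have hd0 : (0 : ℝ) < d := by exact_mod_cast hd
  unfold rt
  rw [Nat.le_floor_iff (by positivity), Real.le_rpow_inv_iff_of_pos (by positivity) (by positivity) hk0,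
    Real.rpow_natCast, le_div_iff₀ hd0]
  constructor
  · intro h; exact_mod_cast h
  · intro h; exact_mod_cast h

theorem sum_rep {M : Type*} [AddCommMonoid M] (k X : ℕ) (hk : 1 ≤ k) (B : Finset ℕ) (hB : ∀ d ∈ B, 1 ≤ d)
    (F : ℕ → M) :
    ∑ n ∈ Icc 1 X, (rep k B n).card • F n = ∑ d ∈ B, ∑ a ∈ Icc 1 (rt k X d), F (a ^ k * d) := by
  classical
  have h1 : ∀ n, (rep k B n).card • F n = ∑ d ∈ B, if (∃ a : ℕ, 1 ≤ a ∧ a ^ k * d = n) then F n else 0 := by
    intro n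
    unfold rep
    rw [← sum_const, sum_filter]
  simp only [h1]
  rw [sum_comm]
  apply sum_congr rfl
  intro d hd
  have hd1 := hB d hd
  rw [← sum_filter]
  have hinj : Set.InjOn (fun a : ℕ => a ^ k * d) (Icc 1 (rt k X d) : Finset ℕ) := by
    intro a _ b _ h
    simp only at h
    have h2 : a ^ k = b ^ k := Nat.eq_of_mul_eq_mul_right (by omega) h
    exact Nat.pow_left_injective (by omega) h2
  have himg : (Icc 1 X).filter (fun n => ∃ a : ℕ, 1 ≤ a ∧ a ^ k * d = n) =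
      (Icc 1 (rt k X d)).image (fun a : ℕ => a ^ k * d) := by
    ext n
    simp only [mem_filter, mem_Icc, mem_image]
    constructor
    · rintro ⟨⟨h1, h2⟩, a, ha, rfl⟩
      exact ⟨a, ⟨ha, (le_rt hk hd1).2 h2⟩, rfl⟩
    · rintro ⟨a, ⟨ha, ha2⟩, rfl⟩
      refine ⟨⟨?_, (le_rt hk hd1).1 ha2⟩, a, ha, rfl⟩
      have : 1 ≤ a ^ k := Nat.one_le_pow _ _ ha
      nlinarith
  rw [himg, sum_image hinj]

theorem wt_nonneg (k : ℕ) (B : Finset ℕ) (n : ℕ) : 0 ≤ wt k B n := Nat.cast_nonneg _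

theorem wt_one {k : ℕ} {B : Finset ℕ} {n : ℕ} (h : ∃ a : ℕ, 1 ≤ a ∧ ∃ d ∈ B, n = a ^ k * d) :
    1 ≤ wt k B n := by
  classical
  obtain ⟨a, ha, d, hd, rfl⟩ := h
  have : (rep k B (a ^ k * d)).Nonempty := by
    refine ⟨d, ?_⟩
    unfold rep
    rw [mem_filter]
    exact ⟨hd, a, ha, rfl⟩
  unfold wt
  exact_mod_cast card_pos.2 this

theorem sum_wt (k X : ℕ) (hk : 1 ≤ k) (B : Finset ℕ) (hB : ∀ d ∈ B, 1 ≤ d) :
    ∑ n ∈ Icc 1 X, wt k B n = ∑ d ∈ B, (rt k X d : ℝ) := by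
  have h := sum_rep k X hk B hB (fun _ => (1 : ℝ))
  simp only [nsmul_eq_mul, mul_one, sum_const, Nat.card_Icc, add_tsub_cancel_right] at h
  exact h

theorem wt_le_divisors (k : ℕ) (B : Finset ℕ) (n : ℕ) (hn : 1 ≤ n) :
    wt k B n ≤ (n.divisors.card : ℝ) := by
  classical
  unfold wt
  have : rep k B n ⊆ n.divisors := by
    intro d hd
    unfold rep at hd
    rw [mem_filter] at hd
    obtain ⟨_, a, _, h⟩ := hd
    rw [Nat.mem_divisors]
    exact ⟨⟨a ^ k, by rw [← h, mul_comm]⟩, by omega⟩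
  exact_mod_cast card_le_card this

theorem Kw_eq (k X : ℕ) (hk : 1 ≤ k) (B : Finset ℕ) (hB : ∀ d ∈ B, 1 ≤ d) (t : ℝ) :
    Kw X (wt k B) t = ∑ d ∈ B, ∑ a ∈ Icc 1 (rt k X d), ph t (a ^ k * d) := by
  rw [← sum_rep k X hk B hB (fun n => ph t n)]
  unfold Kw wt
  apply sum_congr rfl
  intro n _
  rw [nsmul_eq_mul]
  push_cast
  rfl

theorem ph_pow (k a d : ℕ) (ha : 1 ≤ a) (hd : 1 ≤ d) (t : ℝ) :
    ph t (a ^ k * d) = ph (k * t) a * ph t d := by
  unfold ph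
  rw [← Complex.exp_add]
  congr 1
  have ha0 : (a : ℝ) ≠ 0 := by
    have : (1 : ℝ) ≤ a := by exact_mod_cast ha
    linarith
  have hd0 : (d : ℝ) ≠ 0 := by
    have : (1 : ℝ) ≤ d := by exact_mod_cast hd
    linarith
  push_cast
  rw [Real.log_mul (pow_ne_zero k ha0) hd0, Real.log_pow]
  push_cast
  ring

theorem Kw_le (k X : ℕ) (hk : 1 ≤ k) (B : Finset ℕ) (hB : ∀ d ∈ B, 1 ≤ d) (t : ℝ) :
    ‖Kw X (wt k B) t‖ ≤ ∑ d ∈ B, ‖∑ a ∈ Icc 1 (rt k X d), ph (k * t) a‖ := by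
  rw [Kw_eq k X hk B hB]
  refine (norm_sum_le _ _).trans ?_
  apply sum_le_sum
  intro d hd
  have h1 : ∑ a ∈ Icc 1 (rt k X d), ph t (a ^ k * d) =
      (∑ a ∈ Icc 1 (rt k X d), ph (k * t) a) * ph t d := by
    rw [sum_mul]
    apply sum_congr rfl
    intro a ha
    exact ph_pow k a d (mem_Icc.1 ha).1 (hB d hd) t
  rw [h1, norm_mul, ph_norm, mul_one]

/-- the properties of the weight and of its kernel -/
structure GoodW (N X : ℕ) (w : ℕ → ℝ) (c T C0 : ℝ) : Prop where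
  hw0 : ∀ n, 0 ≤ w n
  hw1 : ∑ n ∈ Icc 1 X, w n ≤ C0 * (N : ℝ) ^ (1 / 2 + c)
  hw2 : ∑ n ∈ Icc 1 X, w n ^ 2 ≤ C0 * (N : ℝ) ^ (1 / 2 + 2 * c)
  hK : ∀ t : ℝ, 8 * (N : ℝ) ^ (1 + 2 * c) < |t| → |t| ≤ T →
    ‖Kw X w t‖ ≤ C0 * (1 + Real.log (2 * N)) * (N : ℝ) ^ (1 / 2 - c)

theorem kernel (A δ : ℝ) (hA : 0 ≤ A) (hδ : 0 < δ) (hδ1 : δ ≤ 1) (k : ℕ) (hk : 1 ≤ k) :
    ∃ c : ℝ, 0 < c ∧ c ≤ 1 / 64 ∧ ∃ C0 : ℝ, 1 ≤ C0 ∧ ∀ (N X : ℕ) (B : Finset ℕ), 1 ≤ N → N ≤ X → X ≤ 2 * N →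
      (∀ d ∈ B, 1 ≤ d ∧ (d : ℝ) ≤ (N : ℝ) ^ (1 - δ)) →
      ∑ d ∈ B, ((N : ℝ) / d) ^ ((k : ℝ)⁻¹) ≤ 2 * (N : ℝ) ^ (1 / 2 + c) →
      GoodW N X (wt k B) c ((N : ℝ) ^ A) C0 := by
  have hk1 : (1 : ℝ) ≤ k := by exact_mod_cast hk
  have hk0 : (0 : ℝ) < k := by linarith
  obtain ⟨c', hc'0, hc', C', hC', h⟩ := zsum (k + k * A / δ) (by
    have : 0 ≤ k * A / δ := by positivity
    linarith)
  set c : ℝ := δ * c' / (2 * k) with hc
  have hc0 : 0 < c := by rw [hc]; positivity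
  have hcle : c ≤ 1 / 128 := by
    rw [hc, div_le_iff₀ (by positivity)]
    have : δ * c' ≤ 1 * (1 / 64) := mul_le_mul hδ1 hc' hc'0.le (by norm_num)
    nlinarith
  obtain ⟨Cτ, hCτ, hτ⟩ := Pool.Agent.H510R2.divisor_bound c hc0
  refine ⟨c, hc0, by linarith, 16 * C' + 8 * Cτ, by nlinarith, ?_⟩
  intro N X B hN hNX hX2 hB hBs
  have hN1 : (1 : ℝ) ≤ N := by exact_mod_cast hN
  have hN0 : (0 : ℝ) < N := by linarith
  have hX1 : 1 ≤ X := hN.trans hNX
  have hNXr : (N : ℝ) ≤ X := by exact_mod_cast hNX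
  have hX2r : (X : ℝ) ≤ 2 * N := by exact_mod_cast hX2
  have hB1 : ∀ d ∈ B, 1 ≤ d := fun d hd => (hB d hd).1
  set lg : ℝ := 1 + Real.log (2 * N) with hlg
  have hlg1 : 1 ≤ lg := by
    have : 0 ≤ Real.log (2 * (N : ℝ)) := Real.log_nonneg (by linarith)
    linarith
  have hkinv0 : 0 < ((k : ℝ)⁻¹) := by positivity
  have hkinv1 : ((k : ℝ)⁻¹) ≤ 1 := inv_le_one_of_one_le₀ hk1
  set ρ : ℕ → ℝ := fun d => ((N : ℝ) / d) ^ ((k : ℝ)⁻¹) with hρ
  have hρ0 : ∀ d, 0 ≤ ρ d := fun d => by positivity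
  -- bounds for the roots
  have hup : ∀ d ∈ B, (rt k X d : ℝ) ≤ 2 * ρ d := by
    intro d hd
    have hd0 : (0 : ℝ) < d := by exact_mod_cast hB1 d hd
    have h1 : (rt k X d : ℝ) ≤ ((X : ℝ) / d) ^ ((k : ℝ)⁻¹) := Nat.floor_le (by positivity)
    refine h1.trans ?_
    calc ((X : ℝ) / d) ^ ((k : ℝ)⁻¹) ≤ (2 * ((N : ℝ) / d)) ^ ((k : ℝ)⁻¹) := by
          apply Real.rpow_le_rpow (by positivity) _ hkinv0.le
          rw [← mul_div_assoc]
          gcongr
      _ = 2 ^ ((k : ℝ)⁻¹) * ρ d := by rw [Real.mul_rpow (by norm_num) (by positivity)]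
      _ ≤ 2 * ρ d := by
          apply mul_le_mul_of_nonneg_right _ (hρ0 d)
          calc (2 : ℝ) ^ ((k : ℝ)⁻¹) ≤ 2 ^ (1 : ℝ) :=
                Real.rpow_le_rpow_of_exponent_le (by norm_num) hkinv1
            _ = 2 := Real.rpow_one _
  have hρlow : ∀ d ∈ B, (N : ℝ) ^ (δ / k) ≤ ρ d := by
    intro d hd
    have hd0 : (0 : ℝ) < d := by exact_mod_cast hB1 d hd
    have h1 := (hB d hd).2
    have h2 : (N : ℝ) ^ δ ≤ (N : ℝ) / d := by
      rw [le_div_iff₀ hd0]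
      calc (N : ℝ) ^ δ * d ≤ (N : ℝ) ^ δ * (N : ℝ) ^ (1 - δ) := by gcongr
        _ = N := by rw [← Real.rpow_add hN0]; simp
    calc (N : ℝ) ^ (δ / k) = ((N : ℝ) ^ δ) ^ ((k : ℝ)⁻¹) := by
          rw [← Real.rpow_mul hN0.le]; rfl
      _ ≤ ρ d := Real.rpow_le_rpow (by positivity) h2 hkinv0.le
  have hlow1 : ∀ d ∈ B, 1 ≤ rt k X d := by
    intro d hd
    rw [le_rt hk (hB1 d hd), one_pow, one_mul]
    have h1 : (d : ℝ) ≤ N := (hB d hd).2.trans (by
      calc (N : ℝ) ^ (1 - δ) ≤ (N : ℝ) ^ (1 : ℝ) := Real.rpow_le_rpow_of_exponent_le hN1 (by linarith)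
        _ = N := Real.rpow_one _)
    have h2 : d ≤ N := by exact_mod_cast h1
    omega
  have hlow2 : ∀ d ∈ B, (N : ℝ) ^ (δ / k) ≤ 2 * rt k X d := by
    intro d hd
    have hd0 : (0 : ℝ) < d := by exact_mod_cast hB1 d hd
    have h1 : ((X : ℝ) / d) ^ ((k : ℝ)⁻¹) < rt k X d + 1 := Nat.lt_floor_add_one _
    have h2 : (1 : ℝ) ≤ rt k X d := by exact_mod_cast hlow1 d hd
    have h3 : ρ d ≤ ((X : ℝ) / d) ^ ((k : ℝ)⁻¹) := by
      apply Real.rpow_le_rpow (by positivity) _ hkinv0.le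
      gcongr
    have := hρlow d hd
    linarith
  have hrX : ∀ d ∈ B, (rt k X d : ℝ) ≤ 2 * N := by
    intro d hd
    have h1 := (le_rt (a := rt k X d) (X := X) hk (hB1 d hd)).1 le_rfl
    have h2 := hB1 d hd
    have h3 : rt k X d ≤ rt k X d ^ k * d := by
      have h4 : rt k X d ≤ rt k X d ^ k := Nat.le_self_pow (by omega) _
      nlinarith
    have h5 : rt k X d ≤ X := h3.trans h1
    have h6 : (rt k X d : ℝ) ≤ X := by exact_mod_cast h5
    linarith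
  have hρtot : ∀ d ∈ B, ρ d ≤ 2 * (N : ℝ) ^ (1 / 2 + c) := by
    intro d hd
    refine le_trans ?_ hBs
    exact single_le_sum (f := ρ) (fun d _ => hρ0 d) hd
  have hs1 : ∑ n ∈ Icc 1 X, wt k B n ≤ 4 * (N : ℝ) ^ (1 / 2 + c) := by
    rw [sum_wt k X hk B hB1]
    calc ∑ d ∈ B, (rt k X d : ℝ) ≤ ∑ d ∈ B, 2 * ρ d := sum_le_sum hup
      _ = 2 * ∑ d ∈ B, ρ d := by rw [mul_sum]
      _ ≤ 2 * (2 * (N : ℝ) ^ (1 / 2 + c)) := by gcongr
      _ = _ := by ring
  refine ⟨wt_nonneg k B, ?_, ?_, ?_⟩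
  · refine hs1.trans ?_
    have : 0 ≤ (N : ℝ) ^ (1 / 2 + c) := by positivity
    nlinarith
  · have hw : ∀ n ∈ Icc 1 X, wt k B n ^ 2 ≤ (2 * Cτ * (N : ℝ) ^ c) * wt k B n := by
      intro n hn
      rw [mem_Icc] at hn
      rw [sq]
      apply mul_le_mul_of_nonneg_right _ (wt_nonneg k B n)
      refine (wt_le_divisors k B n hn.1).trans ((hτ n hn.1).trans ?_)
      have h1 : (n : ℝ) ≤ 2 * N := by
        have : (n : ℝ) ≤ X := by exact_mod_cast hn.2
        linarith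
      calc Cτ * (n : ℝ) ^ c ≤ Cτ * (2 * (N : ℝ)) ^ c := by gcongr
        _ = Cτ * (2 ^ c * (N : ℝ) ^ c) := by rw [Real.mul_rpow (by norm_num) hN0.le]
        _ ≤ Cτ * (2 * (N : ℝ) ^ c) := by
            have : (2 : ℝ) ^ c ≤ 2 := by
              calc (2 : ℝ) ^ c ≤ 2 ^ (1 : ℝ) :=
                    Real.rpow_le_rpow_of_exponent_le (by norm_num) (by linarith)
                _ = 2 := Real.rpow_one _
            gcongr
        _ = _ := by ring
    calc ∑ n ∈ Icc 1 X, wt k B n ^ 2 ≤ ∑ n ∈ Icc 1 X, (2 * Cτ * (N : ℝ) ^ c) * wt k B n := sum_le_sum hw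
      _ = (2 * Cτ * (N : ℝ) ^ c) * ∑ n ∈ Icc 1 X, wt k B n := by rw [mul_sum]
      _ ≤ (2 * Cτ * (N : ℝ) ^ c) * (4 * (N : ℝ) ^ (1 / 2 + c)) := by gcongr
      _ = 8 * Cτ * ((N : ℝ) ^ c * (N : ℝ) ^ (1 / 2 + c)) := by ring
      _ = 8 * Cτ * (N : ℝ) ^ (1 / 2 + 2 * c) := by
          rw [← Real.rpow_add hN0]
          congr 2
          ring
      _ ≤ _ := by
          have : 0 ≤ (N : ℝ) ^ (1 / 2 + 2 * c) := by positivity
          nlinarith
  · intro t ht1 ht2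
    refine (Kw_le k X hk B hB1 t).trans ?_
    have hterm : ∀ d ∈ B, ‖∑ a ∈ Icc 1 (rt k X d), ph (k * t) a‖ ≤
        4 * C' * lg * (N : ℝ) ^ (-(2 * c)) * ρ d := by
      intro d hd
      have hr1 : (1 : ℝ) ≤ rt k X d := by exact_mod_cast hlow1 d hd
      have hr0 : (0 : ℝ) < rt k X d := by linarith
      have habs : |(k : ℝ) * t| = k * |t| := by rw [abs_mul, abs_of_pos hk0]
      have hN8 : 8 * (N : ℝ) ≤ 8 * (N : ℝ) ^ (1 + 2 * c) := by
        have : (N : ℝ) ≤ (N : ℝ) ^ (1 + 2 * c) := by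
          calc (N : ℝ) = (N : ℝ) ^ (1 : ℝ) := (Real.rpow_one _).symm
            _ ≤ _ := Real.rpow_le_rpow_of_exponent_le hN1 (by linarith)
        linarith
      have hz := h (rt k X d) (hlow1 d hd) (k * t) (by
        rw [habs]
        have e1 : (rt k X d : ℝ) ≤ 4 * (N : ℝ) ^ (1 / 2 + c) := by
          have := hup d hd
          have := hρtot d hd
          linarith
        have e2 : (rt k X d : ℝ) ^ (1 + 2 * c') ≤ 8 * (N : ℝ) := by
          calc (rt k X d : ℝ) ^ (1 + 2 * c') ≤ (4 * (N : ℝ) ^ (1 / 2 + c)) ^ (1 + 2 * c') :=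
                Real.rpow_le_rpow hr0.le e1 (by linarith)
            _ = 4 ^ (1 + 2 * c') * (N : ℝ) ^ ((1 / 2 + c) * (1 + 2 * c')) := by
                rw [Real.mul_rpow (by norm_num) (by positivity), ← Real.rpow_mul hN0.le]
            _ ≤ 8 * (N : ℝ) ^ (1 : ℝ) := by
                apply mul_le_mul
                · calc (4 : ℝ) ^ (1 + 2 * c') ≤ 4 ^ (3 / 2 : ℝ) :=
                        Real.rpow_le_rpow_of_exponent_le (by norm_num) (by linarith)
                    _ = 8 := by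
                        rw [show (4 : ℝ) = 2 ^ (2 : ℝ) by norm_num, ← Real.rpow_mul (by norm_num)]
                        norm_num
                · apply Real.rpow_le_rpow_of_exponent_le hN1
                  nlinarith
                · positivity
                · norm_num
            _ = 8 * (N : ℝ) := by rw [Real.rpow_one]
        have e3 : |t| ≤ k * |t| := le_mul_of_one_le_left (abs_nonneg t) hk1
        linarith)
        (by
        rw [habs]
        have h2r : (1 : ℝ) ≤ 2 * rt k X d := by linarith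
        have h2r2 : (2 : ℝ) ≤ 2 * rt k X d := by linarith
        have e1 : (k : ℝ) ≤ (2 * rt k X d : ℝ) ^ (k : ℝ) := by
          rw [Real.rpow_natCast]
          calc (k : ℝ) ≤ 2 ^ k := by exact_mod_cast (Nat.lt_two_pow_self).le
            _ ≤ (2 * rt k X d : ℝ) ^ k := pow_le_pow_left₀ (by norm_num) h2r2 k
        have e2 : |t| ≤ (2 * rt k X d : ℝ) ^ (k * A / δ) := by
          refine ht2.trans ?_
          calc (N : ℝ) ^ A = ((N : ℝ) ^ (δ / k)) ^ (k * A / δ) := by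
                rw [← Real.rpow_mul hN0.le]
                congr 1
                field_simp
            _ ≤ _ := Real.rpow_le_rpow (by positivity) (hlow2 d hd) (by positivity)
        calc (k : ℝ) * |t| ≤ (2 * rt k X d : ℝ) ^ (k : ℝ) * (2 * rt k X d : ℝ) ^ (k * A / δ) :=
              mul_le_mul e1 e2 (abs_nonneg t) (by positivity)
          _ = _ := by rw [← Real.rpow_add (by linarith)])
      refine hz.trans ?_
      have e4 : 1 + Real.log (2 * (rt k X d : ℝ)) ≤ 2 * lg := by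
        have h1 : Real.log (2 * (rt k X d : ℝ)) ≤ Real.log (2 * (2 * N)) :=
          Real.log_le_log (by linarith) (by linarith [hrX d hd])
        have h2 : Real.log (2 * (2 * (N : ℝ))) = Real.log 2 + Real.log (2 * N) :=
          Real.log_mul (by norm_num) (by positivity)
        have := Real.log_two_lt_d9
        rw [hlg] at hlg1 ⊢
        linarith
      have e5 : (rt k X d : ℝ) ^ (1 - c') ≤ 2 * ((N : ℝ) ^ (-(2 * c)) * ρ d) := by
        have hρpos : 0 < ρ d := lt_of_lt_of_le (by positivity) (hρlow d hd)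
        calc (rt k X d : ℝ) ^ (1 - c') ≤ (2 * ρ d) ^ (1 - c') :=
              Real.rpow_le_rpow hr0.le (hup d hd) (by linarith)
          _ = 2 ^ (1 - c') * ((ρ d) ^ (-c') * ρ d) := by
              rw [Real.mul_rpow (by norm_num) hρpos.le]
              congr 1
              rw [← Real.rpow_add_one hρpos.ne']
              congr 1
              ring
          _ ≤ 2 * ((N : ℝ) ^ (-(2 * c)) * ρ d) := by
              apply mul_le_mul
              · calc (2 : ℝ) ^ (1 - c') ≤ 2 ^ (1 : ℝ) :=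
                      Real.rpow_le_rpow_of_exponent_le (by norm_num) (by linarith)
                  _ = 2 := Real.rpow_one _
              · apply mul_le_mul_of_nonneg_right _ hρpos.le
                calc (ρ d) ^ (-c') ≤ ((N : ℝ) ^ (δ / k)) ^ (-c') :=
                      Real.rpow_le_rpow_of_nonpos (by positivity) (hρlow d hd) (by linarith)
                  _ = (N : ℝ) ^ (-(2 * c)) := by
                      rw [← Real.rpow_mul hN0.le]
                      congr 1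
                      rw [hc]
                      field_simp
              · positivity
              · norm_num
      calc C' * (1 + Real.log (2 * (rt k X d : ℝ))) * (rt k X d : ℝ) ^ (1 - c')
          ≤ C' * (2 * lg) * (2 * ((N : ℝ) ^ (-(2 * c)) * ρ d)) := by
            apply mul_le_mul _ e5 (by positivity) (by positivity)
            exact mul_le_mul_of_nonneg_left e4 (by linarith)
        _ = _ := by ring
    calc ∑ d ∈ B, ‖∑ a ∈ Icc 1 (rt k X d), ph (k * t) a‖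
        ≤ ∑ d ∈ B, 4 * C' * lg * (N : ℝ) ^ (-(2 * c)) * ρ d := sum_le_sum hterm
      _ = 4 * C' * lg * (N : ℝ) ^ (-(2 * c)) * ∑ d ∈ B, ρ d := by rw [mul_sum]
      _ ≤ 4 * C' * lg * (N : ℝ) ^ (-(2 * c)) * (2 * (N : ℝ) ^ (1 / 2 + c)) := by gcongr
      _ = 8 * C' * lg * ((N : ℝ) ^ (-(2 * c)) * (N : ℝ) ^ (1 / 2 + c)) := by ring
      _ = 8 * C' * lg * (N : ℝ) ^ (1 / 2 - c) := by
          rw [← Real.rpow_add hN0]
          congr 2
          ring
      _ ≤ _ := by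
          have h1 : 0 ≤ lg * (N : ℝ) ^ (1 / 2 - c) := by positivity
          have h2 : 8 * C' ≤ 16 * C' + 8 * Cτ := by linarith
          calc 8 * C' * lg * (N : ℝ) ^ (1 / 2 - c) = 8 * C' * (lg * (N : ℝ) ^ (1 / 2 - c)) := by ring
            _ ≤ (16 * C' + 8 * Cτ) * (lg * (N : ℝ) ^ (1 / 2 - c)) := mul_le_mul_of_nonneg_right h2 h1
            _ = _ := by ring

end Pool.Agent.R251.MV
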