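import Pool.Agent.R251.MV.Ker
import Pool.Agent.R251.MV.Fam

/-!
The two families of supports.
-/

set_option autoImplicit false

namespace Pool.Agent.R251.MV

open Finset

theorem supp1 {k n : ℕ} {B : Finset ℕ} (hk : 1 ≤ k) (hn : 1 ≤ n) (h : ∃ a : ℕ, ∃ d ∈ B, n = a ^ k * d) :
    1 ≤ wt k B n := by
  obtain ⟨a, d, hd, rfl⟩ := h
  apply wt_one
  refine ⟨a, ?_, d, hd, rfl⟩
  by_contra ha
  have : a = 0 := by omega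
  subst this
  rw [zero_pow (by omega), zero_mul] at hn
  omega

theorem supp2 {k n : ℕ} {x : ℝ} (hk : 1 ≤ k) (hn : 1 ≤ n) (h : ∃ a d : ℕ, n = a ^ k * d ∧ (d : ℝ) ≤ x) :
    1 ≤ wt k (Icc 1 ⌊x⌋₊) n := by
  obtain ⟨a, d, hnd, hd⟩ := h
  apply supp1 hk hn
  refine ⟨a, d, ?_, hnd⟩
  rw [mem_Icc]
  constructor
  · by_contra h0
    have : d = 0 := by omega
    rw [this, mul_zero] at hnd
    omega
  · exact Nat.le_floor hd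

theorem kernelFam (A : ℝ) (hA : 0 ≤ A) (k : ℕ) (hk : 2 ≤ k) :
    ∃ c : ℝ, 0 < c ∧ c ≤ 1 / 64 ∧ ∃ C0 : ℝ, 1 ≤ C0 ∧ ∀ N X : ℕ, 1 ≤ N → N ≤ X → X ≤ 2 * N →
      GoodW N X (wt k (Icc 1 ⌊(N : ℝ) ^ (((k : ℝ) - 2) / (2 * ((k : ℝ) - 1)) + c)⌋₊)) c ((N : ℝ) ^ A) C0 := by
  obtain ⟨c, hc0, hc, C0, hC0, h⟩ := kernel A (1 / 4) hA (by norm_num) (by norm_num) k (by omega)
  refine ⟨c, hc0, hc, C0, hC0, ?_⟩
  intro N X hN hNX hX2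
  obtain ⟨h1, h2⟩ := fam k hk c hc0.le hc N hN
  exact h N X _ hN hNX hX2 h1 h2

end Pool.Agent.R251.MV
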